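import Pool.Agent.Helper406.Rec.Neg

/-!
Digit functions with values in the integers modulo nine which are sums of `m` coboundaries, one
in each of `m` commuting directions.
-/

namespace Pool.Agent.U373.KR

open Finset
open Pool.Agent.Helper406.Rec (g1 h1 digit_identity)

section cls
variable {Γ : Type} [AddCommGroup Γ] (D : Set Γ)

/-- sums of coboundaries, `m` levels -/
def Cl : ℕ → (Γ → ZMod 9) → Prop
  | 0, f => ∀ σ ∈ D, f σ = 0
  | m + 1, f => ∃ G : Γ → ZMod 9, ∀ x, Cl m (fun σ => f σ - (G (x + σ) - G x))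

variable {D}

lemma Cl.congr {m : ℕ} : ∀ {f g : Γ → ZMod 9}, Cl D m f → (∀ σ ∈ D, f σ = g σ) → Cl D m g := by
  induction m with
  | zero =>
    intro f g hf h σ hσ
    rw [← h σ hσ]; exact hf σ hσ
  | succ m ih =>
    rintro f g ⟨G, hG⟩ h
    refine ⟨G, fun x => ih (hG x) fun σ hσ => ?_⟩
    simp only [h σ hσ]

lemma Cl.zero (m : ℕ) : Cl D m (fun _ => 0) := by
  induction m with
  | zero => intro σ _; rfl
  | succ m ih =>
    refine ⟨fun _ => 0, fun x => ?_⟩
    simpa using ih

lemma Cl.add {m : ℕ} : ∀ {f g : Γ → ZMod 9}, Cl D m f → Cl D m g → Cl D m (fun σ => f σ + g σ) := by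
  induction m with
  | zero =>
    intro f g hf hg σ hσ
    simp only [hf σ hσ, hg σ hσ, add_zero]
  | succ m ih =>
    rintro f g ⟨G, hG⟩ ⟨H, hH⟩
    refine ⟨fun x => G x + H x, fun x => (ih (hG x) (hH x)).congr fun σ _ => ?_⟩
    ring

lemma Cl.smul {m : ℕ} (c : ZMod 9) : ∀ {f : Γ → ZMod 9}, Cl D m f → Cl D m (fun σ => c * f σ) := by
  induction m with
  | zero =>
    intro f hf σ hσ
    simp only [hf σ hσ, mul_zero]
  | succ m ih =>
    rintro f ⟨G, hG⟩
    refine ⟨fun x => c * G x, fun x => (ih (hG x)).congr fun σ _ => ?_⟩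
    ring

lemma Cl.succ {m : ℕ} : ∀ {f : Γ → ZMod 9}, Cl D m f → Cl D (m + 1) f := by
  induction m with
  | zero =>
    intro f hf
    refine ⟨fun _ => 0, fun x => ?_⟩
    intro σ hσ
    simp only [hf σ hσ, sub_self]
  | succ m ih =>
    rintro f ⟨G, hG⟩
    exact ⟨G, fun x => ih (hG x)⟩

lemma Cl.mono {m n : ℕ} (h : m ≤ n) {f : Γ → ZMod 9} (hf : Cl D m f) : Cl D n f := by
  induction h with
  | refl => exact hf
  | step _ ih => exact ih.succ

lemma Cl.char (χ : Γ →+ ZMod 9) : Cl D 1 (fun σ => χ σ) := by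
  refine ⟨fun x => χ x, fun x => ?_⟩
  intro σ _
  simp only [map_add]
  ring

lemma Cl.mul_char (χ : Γ →+ ZMod 9) {m : ℕ} :
    ∀ {f : Γ → ZMod 9}, Cl D m f → Cl D (m + 1) (fun σ => χ σ * f σ) := by
  induction m with
  | zero =>
    intro f hf
    have h0 : Cl D 0 (fun σ => χ σ * f σ) := by
      intro σ hσ
      simp only [hf σ hσ, mul_zero]
    exact h0.succ
  | succ m ih =>
    rintro f ⟨G, hG⟩
    refine ⟨fun x => χ x * G x, fun x => ?_⟩
    have hf : Cl D (m + 1) f := ⟨G, hG⟩
    have hr : Cl D m (fun σ => f σ - (G (x + σ) - G x)) := hG x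
    have t1 : Cl D (m + 1) (fun σ => (-(χ x)) * f σ) := hf.smul _
    have t2 : Cl D (m + 1) (fun σ => χ x * (f σ - (G (x + σ) - G x))) := (hr.smul _).succ
    have t3 : Cl D (m + 1) (fun σ => (-(G x)) * χ σ) :=
      ((Cl.char (D := D) χ).smul (-(G x))).mono (by omega)
    have t4 : Cl D (m + 1) (fun σ => χ σ * (f σ - (G (x + σ) - G x))) := ih hr
    refine (((t1.add t2).add t3).add t4).congr fun σ _ => ?_
    simp only [map_add]
    ring

/-- unfolding: a function of the class is a sum of `m` coboundaries in commuting directions -/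
theorem Cl.rep {m : ℕ} : ∀ {f : Γ → ZMod 9}, Cl D m f →
    ∃ F : Fin m → (Fin m → Γ) → ZMod 9, ∀ (X : Fin m → Γ), ∀ σ ∈ D,
      f σ = ∑ j, (F j (Function.update X j (X j + σ)) - F j X) := by
  induction m with
  | zero =>
    intro f hf
    refine ⟨fun _ _ => 0, fun X σ hσ => ?_⟩
    rw [hf σ hσ]
    simp
  | succ m ih =>
    rintro f ⟨G, hG⟩
    choose F hF using fun x => ih (hG x)
    refine ⟨Fin.cons (fun X => G (X 0)) (fun j X => F (X 0) j (fun i => X i.succ)), ?_⟩
    intro X σ hσ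
    rw [Fin.sum_univ_succ]
    simp only [Fin.cons_zero, Fin.cons_succ, Function.update_self]
    have h := hF (X 0) (fun i => X i.succ) σ hσ
    have h2 : ∀ j : Fin m,
        (F (Function.update X j.succ (X j.succ + σ) 0) j
            (fun i => Function.update X j.succ (X j.succ + σ) i.succ)
          - F (X 0) j (fun i => X i.succ))
        = F (X 0) j (Function.update (fun i => X i.succ) j (X j.succ + σ))
          - F (X 0) j (fun i => X i.succ) := by
      intro j
      have e0 : Function.update X j.succ (X j.succ + σ) 0 = X 0 := by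
        rw [Function.update_of_ne (Fin.succ_ne_zero j).symm]
      have e1 : (fun i : Fin m => Function.update X j.succ (X j.succ + σ) i.succ)
          = Function.update (fun i => X i.succ) j (X j.succ + σ) := by
        funext i
        by_cases hij : i = j
        · subst hij; simp
        · rw [Function.update_of_ne hij, Function.update_of_ne]
          intro h; exact hij (Fin.succ_injective _ h)
      rw [e0, e1]
    rw [Finset.sum_congr rfl fun j _ => h2 j]
    rw [← h]
    ring

end cls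

/-! ### the digit functions -/

/-- the allowed digit vectors -/
def Dg (r : ℕ) : Set (Fin (r + 1) → ZMod 9) :=
  {σ | (σ 0 = 0 ∨ σ 0 = 1 ∨ σ 0 = 3 ∨ σ 0 = 4) ∧ ∀ l : Fin r, σ l.succ = 0 ∨ σ l.succ = 1}

/-- the weight of a digit vector -/
def fr (r : ℕ) (σ : Fin (r + 1) → ZMod 9) : ZMod 9 :=
  (if σ 0 = 4 then 3 else 0) * ∏ l : Fin r, σ l.succ

/-- evaluation, as a character -/
def ev {r : ℕ} (l : Fin (r + 1)) : (Fin (r + 1) → ZMod 9) →+ ZMod 9 := Pi.evalAddMonoidHom _ l

lemma fr_base (r : ℕ) : Cl (Dg r) 2 (fun σ => if σ 0 = 4 then (3 : ZMod 9) else 0) := by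
  refine ⟨fun x => g1 (x 0), fun x => ⟨fun y => h1 (x 0) (y 0), fun y => ?_⟩⟩
  intro σ hσ
  have h := digit_identity (x 0) (y 0) (σ 0) hσ.1
  simp only [Pi.add_apply]
  rw [← h]
  ring

lemma fr_prod (r : ℕ) (t : Finset (Fin r)) :
    Cl (Dg r) (2 + t.card) (fun σ => (if σ 0 = 4 then (3 : ZMod 9) else 0) * ∏ l ∈ t, σ l.succ) := by
  classical
  induction t using Finset.induction with
  | empty =>
    refine (fr_base r).congr fun σ _ => ?_
    simp
  | insert a t ha ih =>
    rw [Finset.card_insert_of_notMem ha]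
    refine (ih.mul_char (ev a.succ)).congr fun σ _ => ?_
    rw [Finset.prod_insert ha]
    show σ a.succ * _ = _
    ring

theorem fr_cl (r : ℕ) : Cl (Dg r) (r + 2) (fr r) := by
  have h := fr_prod r Finset.univ
  rw [Finset.card_univ, Fintype.card_fin, add_comm 2 r] at h
  exact h

/-- the key identity -/
theorem fr_rep (r : ℕ) : ∃ F : Fin (r + 2) → (Fin (r + 2) → (Fin (r + 1) → ZMod 9)) → ZMod 9,
    ∀ (X : Fin (r + 2) → (Fin (r + 1) → ZMod 9)), ∀ σ ∈ Dg r,
      fr r σ = ∑ j, (F j (Function.update X j (X j + σ)) - F j X) :=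
  (fr_cl r).rep

end Pool.Agent.U373.KR
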