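import Pool.Agent.U373.KR.VN

/-!
The base case (three functions, the game of helper406) and the iteration.
-/

namespace Pool.Agent.U373.KR

open Finset MeasureTheory
open scoped ComplexConjugate
open Pool.Agent.Helper406.Rec (wt sd Xv Yv Zv yi zi Xv_sd Xv_sd2 game)

universe u

/-- value functions of the base case -/
def baseV : Set (Fin 3 × Fin 2 → ℤ) := {v | ∃ c : ℤ, v = fun q => ((sd q.1 q.2 : ℕ) : ℤ) * c}

lemma base_fin (ζ : ℂ) (hζ : ζ ^ 2 + ζ + 1 = 0) (hn : ‖ζ‖ = 1) {X : Type u} [MeasurableSpace X]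
    (μ : Measure X) [IsProbabilityMeasure μ] (S : ZAct μ) (n : ℕ) (lam : Fin n → ℤ)
    (f : Fin 3 → X → ℂ) (hf : ∀ j, Bd (f j)) :
    ‖∑ a : Fin n → Fin 3, ∑ b : Fin n → Fin 2, (∏ i, wt ζ (a i) (b i)) *
      II S f (∑ i, ((sd (a i) (b i) : ℕ) : ℤ) * lam i)‖ ≤ Real.sqrt (141 / 4) ^ n := by
  set F : X → (Fin n → Fin 3) → ℂ := fun x a => f 0 (S.P (∑ i, ((Xv (a i) : ℕ) : ℤ) * lam i) x)
    with hF
  set G : X → (Fin n → Fin 3) → ℂ := fun x a => f 1 (S.P (∑ i, ((Yv (a i) : ℕ) : ℤ) * lam i) x)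
    with hG
  set H : X → (Fin n → Fin 3) → ℂ := fun x a => f 2 (S.P (∑ i, ((Zv (a i) : ℕ) : ℤ) * lam i) x)
    with hH
  have hsums1 : ∀ (a : Fin n → Fin 3) (b : Fin n → Fin 2),
      ∑ i, ((sd (a i) (b i) : ℕ) : ℤ) * lam i + ∑ i, ((Xv (a i) : ℕ) : ℤ) * lam i
        = ∑ i, ((Yv (yi (a i) (b i)) : ℕ) : ℤ) * lam i := by
    intro a b
    rw [← Finset.sum_add_distrib]
    apply Finset.sum_congr rfl; intro i _
    rw [← Xv_sd]; push_cast; ring
  have hsums2 : ∀ (a : Fin n → Fin 3) (b : Fin n → Fin 2),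
      2 * ∑ i, ((sd (a i) (b i) : ℕ) : ℤ) * lam i + ∑ i, ((Xv (a i) : ℕ) : ℤ) * lam i
        = ∑ i, ((Zv (zi (a i) (b i)) : ℕ) : ℤ) * lam i := by
    intro a b
    rw [Finset.mul_sum, ← Finset.sum_add_distrib]
    apply Finset.sum_congr rfl; intro i _
    rw [← Xv_sd2]; push_cast; ring
  have hBd : ∀ (a : Fin n → Fin 3) (b : Fin n → Fin 2), Bd (fun x => F x a * (G x (fun i => yi (a i) (b i)) *
      H x (fun i => zi (a i) (b i)))) := fun a b =>
    ((hf 0).comp S _).mul (((hf 1).comp S _).mul ((hf 2).comp S _))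
  have hint : ∀ (a : Fin n → Fin 3) (b : Fin n → Fin 2),
      ∫ x, F x a * (G x (fun i => yi (a i) (b i)) * H x (fun i => zi (a i) (b i))) ∂μ
        = II S f (∑ i, ((sd (a i) (b i) : ℕ) : ℤ) * lam i) := by
    intro a b
    set N : ℤ := ∑ i, ((sd (a i) (b i) : ℕ) : ℤ) * lam i with hN
    set k : ℤ := ∑ i, ((Xv (a i) : ℕ) : ℤ) * lam i with hk
    unfold II
    rw [← inv_int S ((Bd.prod (Finset.univ : Finset (Fin 3))
      (f := fun (j : Fin 3) x => f j (S.P (((j : ℕ) : ℤ) * N) x))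
      (fun j => (hf j).comp S _)).1) k]
    congr 1
    funext x
    rw [Fin.prod_univ_three]
    simp only [hF, hG, hH]
    rw [← hsums1, ← hsums2, ← S.add, ← S.add, ← S.add]
    simp only [← hN, ← hk]
    simp
    ring
  have hS : ∑ a : Fin n → Fin 3, ∑ b : Fin n → Fin 2, (∏ i, wt ζ (a i) (b i)) *
      II S f (∑ i, ((sd (a i) (b i) : ℕ) : ℤ) * lam i)
      = ∫ x, ∑ a : Fin n → Fin 3, ∑ b : Fin n → Fin 2, (∏ i, wt ζ (a i) (b i)) *
        (F x a * (G x (fun i => yi (a i) (b i)) * H x (fun i => zi (a i) (b i)))) ∂μ := by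
    rw [integral_finsetSum]
    · apply Finset.sum_congr rfl; intro a _
      rw [integral_finsetSum]
      · apply Finset.sum_congr rfl; intro b _
        rw [integral_const_mul, hint]
      · intro b _
        exact (hBd a b).integrable.const_mul _
    · intro a _
      apply integrable_finsetSum
      intro b _
      exact (hBd a b).integrable.const_mul _
  have hC : ∀ x, ‖∑ a : Fin n → Fin 3, ∑ b : Fin n → Fin 2, (∏ i, wt ζ (a i) (b i)) *
        (F x a * (G x (fun i => yi (a i) (b i)) * H x (fun i => zi (a i) (b i))))‖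
        ≤ Real.sqrt (141 / 4) ^ n := by
    intro x
    have h := game ζ hζ hn n (F x) (G x) (H x) (fun a => (hf 0).2 _) (fun a => (hf 1).2 _)
      (fun a => (hf 2).2 _)
    have h9 : (Real.sqrt (141 / 4) ^ n) ^ 2 = (141 / 4 : ℝ) ^ n := by
      rw [← pow_mul, mul_comm n 2, pow_mul, Real.sq_sqrt (by positivity)]
    exact le_of_sq_le_sq (by rw [h9]; exact h) (by positivity)
  rw [hS]
  have := norm_integral_le_of_norm_le_const (μ := μ) (Filter.Eventually.of_forall hC)
  simpa using this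

theorem base_dec (ζ : ℂ) (hζ : ζ ^ 2 + ζ + 1 = 0) (hn : ‖ζ‖ = 1) :
    DecA.{u} 3 (Fin 3 × Fin 2) (fun q => wt ζ q.1 q.2) baseV (Real.sqrt (141 / 4)) := by
  intro X _ μ _ S ι _ _ v hv f hf
  choose c hc using hv
  set n := Fintype.card ι with hnn
  have e : ι ≃ Fin n := Fintype.equivFin ι
  have key := base_fin ζ hζ hn μ S n (fun i => c (e.symm i)) f hf
  have h1 : ∑ t : ι → Fin 3 × Fin 2, (∏ i, wt ζ (t i).1 (t i).2) * II S f (∑ i, v i (t i))
      = ∑ a : Fin n → Fin 3, ∑ b : Fin n → Fin 2, (∏ i, wt ζ (a i) (b i)) *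
        II S f (∑ i, ((sd (a i) (b i) : ℕ) : ℤ) * c (e.symm i)) := by
    rw [← Fintype.sum_prod_type (f := fun x : (Fin n → Fin 3) × (Fin n → Fin 2) =>
      (∏ i, wt ζ (x.1 i) (x.2 i)) * II S f (∑ i, ((sd (x.1 i) (x.2 i) : ℕ) : ℤ) * c (e.symm i)))]
    rw [← Equiv.sum_comp (Equiv.arrowProdEquivProdArrow (Fin n) (fun _ => Fin 3)
      (fun _ => Fin 2)) (fun x : (Fin n → Fin 3) × (Fin n → Fin 2) =>
      (∏ i, wt ζ (x.1 i) (x.2 i)) * II S f (∑ i, ((sd (x.1 i) (x.2 i) : ℕ) : ℤ) * c (e.symm i)))]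
    rw [← Equiv.sum_comp (Equiv.arrowCongr e.symm (Equiv.refl (Fin 3 × Fin 2)))
      (fun t : ι → Fin 3 × Fin 2 => (∏ i, wt ζ (t i).1 (t i).2) * II S f (∑ i, v i (t i)))]
    apply Finset.sum_congr rfl
    intro t _
    congr 1
    · rw [← Equiv.prod_comp e (fun i => wt ζ
        (((Equiv.arrowProdEquivProdArrow (Fin n) (fun _ => Fin 3) (fun _ => Fin 2)) t).1 i)
        (((Equiv.arrowProdEquivProdArrow (Fin n) (fun _ => Fin 3) (fun _ => Fin 2)) t).2 i))]
      apply Finset.prod_congr rfl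
      intro i _
      simp [Equiv.arrowCongr, Equiv.arrowProdEquivProdArrow]
    · congr 1
      rw [← Equiv.sum_comp e (fun i => ((sd (((Equiv.arrowProdEquivProdArrow (Fin n)
        (fun _ => Fin 3) (fun _ => Fin 2)) t).1 i) (((Equiv.arrowProdEquivProdArrow (Fin n)
        (fun _ => Fin 3) (fun _ => Fin 2)) t).2 i) : ℕ) : ℤ) * c (e.symm i))]
      apply Finset.sum_congr rfl
      intro i _
      rw [hc i]
      simp [Equiv.arrowCongr, Equiv.arrowProdEquivProdArrow]
  have h2 : ∑ t : ι → Fin 3 × Fin 2, (∏ i, (fun q : Fin 3 × Fin 2 => wt ζ q.1 q.2) (t i)) *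
      II S f (∑ i, v i (t i)) = ∑ t : ι → Fin 3 × Fin 2, (∏ i, wt ζ (t i).1 (t i).2) *
      II S f (∑ i, v i (t i)) := rfl
  rw [h2, h1]
  exact key

/-- target weight of a digit vector -/
noncomputable def wg (r : ℕ) (ζ : ℂ) (d : Fin (r + 1) → ℕ) : ℂ := by
  classical
  exact if d 0 = 4 ∧ ∀ l : Fin r, d l.succ = 1 then ζ else 1

/-- value functions for digit vectors -/
def valV {r : ℕ} {Ω : Type} (dg : Ω → Fin (r + 1) → ℕ) : Set (Ω → ℤ) :=
  {v | ∃ lam : Fin (r + 1) → ℤ, v = fun ω => ∑ l, ((dg ω l : ℕ) : ℤ) * lam l}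

theorem gadget (ζ : ℂ) (hζ : ζ ^ 2 + ζ + 1 = 0) (hn : ‖ζ‖ = 1) (r : ℕ) :
    ∃ (Ω : Type) (_ : Fintype Ω) (_ : Nonempty Ω) (dg : Ω → Fin (r + 1) → ℕ) (B : ℝ),
      0 ≤ B ∧ B < Fintype.card Ω ∧
      (∀ ω, (dg ω 0 = 0 ∨ dg ω 0 = 1 ∨ dg ω 0 = 3 ∨ dg ω 0 = 4) ∧
        ∀ l : Fin r, dg ω l.succ ≤ 1) ∧
      DecA.{u} (r + 3) Ω (fun ω => wg r ζ (dg ω)) (valV dg) B := by
  classical
  induction r with
  | zero =>
    refine ⟨Fin 3 × Fin 2, inferInstance, inferInstance, fun q _ => sd q.1 q.2,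
      Real.sqrt (141 / 4), Real.sqrt_nonneg _, ?_, ?_, ?_⟩
    · rw [Fintype.card_prod, Fintype.card_fin, Fintype.card_fin,
        Real.sqrt_lt' (by norm_num)]
      norm_num
    · intro q
      refine ⟨?_, fun l => l.elim0⟩
      revert q; decide
    · have h := base_dec.{u} ζ hζ hn
      have e1 : (fun q : Fin 3 × Fin 2 => wg 0 ζ (fun _ => sd q.1 q.2))
          = fun q => wt ζ q.1 q.2 := by
        funext q
        rw [Pool.Agent.Helper406.Rec.wt_eq ζ q]
        unfold wg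
        simp
      have e2 : valV (r := 0) (fun (q : Fin 3 × Fin 2) (_ : Fin 1) => sd q.1 q.2) = baseV := by
        ext v
        constructor
        · rintro ⟨lam, rfl⟩
          exact ⟨lam 0, by funext q; simp⟩
        · rintro ⟨c, rfl⟩
          exact ⟨fun _ => c, by funext q; simp⟩
      rw [e1, e2]
      exact h
  | succ r ih =>
    obtain ⟨Ω, _, _, dg, B, hB0, hB1, hdg, hD⟩ := ih
    have hw : ∀ ω, ‖wg r ζ (dg ω)‖ = 1 := by
      intro ω
      unfold wg
      split_ifs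
      · exact hn
      · simp
    have h := dec_step hw hB0 hD
    have hC : (0:ℝ) < Fintype.card Ω := by exact_mod_cast Fintype.card_pos
    refine ⟨Ω × Fin 2, inferInstance, inferInstance,
      fun q => Fin.snoc (α := fun _ => ℕ) (dg q.1) (q.2 : ℕ),
      Real.sqrt (Fintype.card Ω * (B + 3 * Fintype.card Ω)), Real.sqrt_nonneg _, ?_, ?_, ?_⟩
    · rw [Fintype.card_prod, Fintype.card_fin]
      push_cast
      rw [Real.sqrt_lt' (by positivity)]
      nlinarith
    · intro q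
      beta_reduce
      refine ⟨?_, ?_⟩
      · have : Fin.snoc (α := fun _ => ℕ) (dg q.1) (q.2 : ℕ) (0 : Fin (r + 2)) = dg q.1 0 := by
          rw [show (0 : Fin (r + 2)) = Fin.castSucc (0 : Fin (r + 1)) from rfl, Fin.snoc_castSucc]
        rw [this]
        exact (hdg q.1).1
      · intro l
        refine Fin.lastCases ?_ (fun l' => ?_) l
        · rw [Fin.succ_last, Fin.snoc_last]
          have := q.2.2
          omega
        · rw [Fin.succ_castSucc, Fin.snoc_castSucc]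
          exact (hdg q.1).2 l'
    · have e1 : (fun q : Ω × Fin 2 => wg (r + 1) ζ
          (Fin.snoc (α := fun _ => ℕ) (dg q.1) (q.2 : ℕ))) = stepW (fun ω => wg r ζ (dg ω)) := by
        funext q
        unfold wg stepW
        have h0 : Fin.snoc (α := fun _ => ℕ) (dg q.1) (q.2 : ℕ) (0 : Fin (r + 2)) = dg q.1 0 := by
          rw [show (0 : Fin (r + 2)) = Fin.castSucc (0 : Fin (r + 1)) from rfl, Fin.snoc_castSucc]
        have h1 : (∀ l : Fin (r + 1),
            Fin.snoc (α := fun _ => ℕ) (dg q.1) (q.2 : ℕ) l.succ = 1) ↔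
            (∀ l : Fin r, dg q.1 l.succ = 1) ∧ q.2 = 1 := by
          constructor
          · intro h
            refine ⟨fun l => ?_, ?_⟩
            · have := h l.castSucc
              rwa [Fin.succ_castSucc, Fin.snoc_castSucc] at this
            · have := h (Fin.last r)
              rw [Fin.succ_last, Fin.snoc_last] at this
              exact Fin.ext this
          · rintro ⟨ha, hb⟩ l
            refine Fin.lastCases ?_ (fun l' => ?_) l
            · rw [Fin.succ_last, Fin.snoc_last, hb]; rfl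
            · rw [Fin.succ_castSucc, Fin.snoc_castSucc]
              exact ha l'
        simp only [h0, h1]
        by_cases hq : q.2 = 1
        · simp only [hq, and_true, if_true]
        · simp only [hq, and_false, if_false]
      rw [e1]
      intro X _ μ _ S ι _ _ v hv f hf
      refine h X μ S ι v (fun i => ?_) f hf
      obtain ⟨lam, hlam⟩ := hv i
      refine ⟨fun ω => ∑ l, ((dg ω l : ℕ) : ℤ) * lam l.castSucc, ⟨fun l => lam l.castSucc, rfl⟩,
        lam (Fin.last _), ?_⟩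
      rw [hlam]
      funext q
      rw [Fin.sum_univ_castSucc]
      simp only [Fin.snoc_castSucc, Fin.snoc_last]

end Pool.Agent.U373.KR
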