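import Mathlib

/-!
From finite periodic sets to a measure preserving action of the `k`-dimensional lattice (weak
limit of empirical measures).
-/

namespace Pool.Agent.U373.KR

open MeasureTheory Filter Topology

/-- configurations on the lattice -/
abbrev Om (k : ℕ) : Type := (Fin k → ℤ) → Bool

variable {k : ℕ}

/-- the shift by `v` -/
def shf (v : Fin k → ℤ) : Om k ≃ᵐ Om k where
  toFun ω z := ω (z - v)
  invFun ω z := ω (z + v)
  left_inv ω := by funext z; simp
  right_inv ω := by funext z; simp
  measurable_toFun := by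
    apply measurable_pi_lambda
    intro z
    exact measurable_pi_apply _
  measurable_invFun := by
    apply measurable_pi_lambda
    intro z
    exact measurable_pi_apply _

lemma shf_apply (v : Fin k → ℤ) (ω : Om k) (z : Fin k → ℤ) : shf v ω z = ω (z - v) := rfl

lemma shf_continuous (v : Fin k → ℤ) : Continuous (shf v) := by
  apply continuous_pi
  intro z
  exact continuous_apply _

lemma shf_pow (v : Fin k → ℤ) (n : ℕ) (ω : Om k) (z : Fin k → ℤ) :
    (((shf v).toEquiv : Equiv.Perm (Om k)) ^ n) ω z = ω (z - n • v) := by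
  induction n generalizing z with
  | zero => simp
  | succ n ih =>
    rw [pow_succ', Equiv.Perm.mul_apply]
    show (((shf v).toEquiv : Equiv.Perm (Om k)) ^ n) ω (z - v) = _
    rw [ih]
    congr 1
    rw [succ_nsmul]
    abel

lemma shf_comm (v w : Fin k → ℤ) (ω : Om k) : shf v (shf w ω) = shf w (shf v ω) := by
  funext z
  rw [shf_apply, shf_apply, shf_apply, shf_apply]
  congr 1
  abel

/-- cylinder -/
def cyl (v : Fin k → ℤ) : Set (Om k) := {ω | ω v = true}

lemma cyl_clopen (v : Fin k → ℤ) : IsClopen (cyl v) := by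
  have : cyl v = (fun ω : Om k => ω v) ⁻¹' {true} := rfl
  rw [this]
  exact (isClopen_discrete {true}).preimage (continuous_apply v)

lemma shf_image (v : Fin k → ℤ) (n : ℕ) :
    (((shf v).toEquiv : Equiv.Perm (Om k)) ^ n) '' cyl 0 = cyl (n • v) := by
  ext ω
  rw [Equiv.image_eq_preimage_symm]
  show (((shf v).toEquiv : Equiv.Perm (Om k)) ^ n).symm ω 0 = true ↔ ω (n • v) = true
  have h := shf_pow v n ((((shf v).toEquiv : Equiv.Perm (Om k)) ^ n).symm ω) (n • v)
  rw [Equiv.apply_symm_apply, sub_self] at h
  rw [h]

/-- empirical measure -/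
noncomputable def emp {Y : Type} [Fintype Y] (f : Y → Om k) : Measure (Om k) :=
  ((Fintype.card Y : ENNReal))⁻¹ • ∑ x, Measure.dirac (f x)

lemma emp_apply {Y : Type} [Fintype Y] (f : Y → Om k) {s : Set (Om k)} (hs : MeasurableSet s)
    [DecidablePred fun x => f x ∈ s] :
    emp f s = ((Fintype.card Y : ENNReal))⁻¹ * ((Finset.univ.filter fun x => f x ∈ s).card) := by
  unfold emp
  rw [Measure.smul_apply, Measure.finsetSum_apply, smul_eq_mul]
  congr 1
  rw [Finset.card_filter]
  push_cast
  apply Finset.sum_congr rfl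
  intro x _
  rw [Measure.dirac_apply' _ hs, Set.indicator_apply]
  simp only [Pi.one_apply]

lemma emp_prob {Y : Type} [Fintype Y] [Nonempty Y] (f : Y → Om k) :
    IsProbabilityMeasure (emp f) := by
  classical
  constructor
  rw [emp_apply f MeasurableSet.univ]
  simp only [Set.mem_univ, Finset.filter_true, Finset.card_univ]
  apply ENNReal.inv_mul_cancel
  · exact_mod_cast Fintype.card_ne_zero
  · exact ENNReal.natCast_ne_top _

lemma emp_map {Y : Type} [Fintype Y] [Nonempty Y] (f : Y → Om k) (v : Fin k → ℤ) (e : Y ≃ Y)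
    (he : ∀ x, shf v (f x) = f (e x)) :
    (emp f).map (shf v) = emp f := by
  classical
  ext s hs
  rw [Measure.map_apply (shf v).measurable hs, emp_apply f hs,
    emp_apply f ((shf v).measurable hs)]
  congr 2
  apply Finset.card_bij (fun x _ => e x)
  · intro x hx
    simp only [Finset.mem_filter, Finset.mem_univ, true_and, Set.mem_preimage] at hx ⊢
    rwa [he] at hx
  · intro x _ y _ hxy
    exact e.injective hxy
  · intro y hy
    refine ⟨e.symm y, ?_, by simp⟩
    simp only [Finset.mem_filter, Finset.mem_univ, true_and, Set.mem_preimage] at hy ⊢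
    rw [he]
    simpa using hy

/-- the coding of a periodic set -/
noncomputable def code {N : ℕ} (A : (Fin k → ZMod N) → Prop) (x : Fin k → ZMod N) : Om k := by
  classical
  exact fun z => decide (A (fun i => x i + (z i : ZMod N)))

lemma code_iff {N : ℕ} (A : (Fin k → ZMod N) → Prop) (x : Fin k → ZMod N) (z : Fin k → ℤ) :
    code A x z = true ↔ A (fun i => x i + (z i : ZMod N)) := by
  classical
  unfold code
  simp

lemma code_shift {N : ℕ} (A : (Fin k → ZMod N) → Prop) (v : Fin k → ℤ) (x : Fin k → ZMod N) :
    shf v (code A x) = code A (fun i => x i - (v i : ZMod N)) := by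
  funext z
  rw [shf_apply]
  have h1 : code A x (z - v) = true ↔ code A (fun i => x i - (v i : ZMod N)) z = true := by
    rw [code_iff, code_iff]
    have e1 : (fun i => x i + ((z - v) i : ZMod N))
        = fun i => x i - (v i : ZMod N) + (z i : ZMod N) := by
      funext i
      simp only [Pi.sub_apply, Int.cast_sub]
      ring
    rw [e1]
  exact Bool.eq_iff_iff.2 h1

theorem limit_system (S : ℕ → Prop) (c : ENNReal) (hc : 0 < c)
    (h : ∀ K : ℕ, ∃ (N : ℕ) (_ : NeZero N) (A : (Fin k → ZMod N) → Prop),
      (c ≤ emp (code A) (cyl 0)) ∧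
      ∀ n, S n → n < K → ∀ x, ¬ (A x ∧ ∀ j, A (Function.update x j (x j + n)))) :
    ∃ μ : Measure (Om k), IsProbabilityMeasure μ ∧
      (∀ v, MeasurePreserving (shf v) μ μ) ∧
      0 < μ (cyl 0) ∧ ∀ n, S n → μ (cyl 0 ∩ ⋂ j, cyl (n • (Pi.single j 1))) = 0 := by
  classical
  choose N hN A hA hS using h
  have hprob : ∀ K, IsProbabilityMeasure (emp (code (A K))) := fun K => emp_prob _
  let μs : ℕ → ProbabilityMeasure (Om k) := fun K => ⟨emp (code (A K)), hprob K⟩
  let F : Ultrafilter (ProbabilityMeasure (Om k)) := (Filter.hyperfilter ℕ).map μs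
  let μ : ProbabilityMeasure (Om k) := F.lim
  have hlim : Tendsto μs (Filter.hyperfilter ℕ : Filter ℕ) (𝓝 μ) := F.le_nhds_lim
  have hclopen : ∀ E : Set (Om k), IsClopen E →
      Tendsto (fun i ↦ (μs i : Measure (Om k)) E) (Filter.hyperfilter ℕ : Filter ℕ)
        (𝓝 ((μ : Measure (Om k)) E)) := by
    intro E hE
    apply ProbabilityMeasure.tendsto_measure_of_null_frontier_of_tendsto' hlim
    rw [hE.frontier_eq]
    simp
  have hinv : ∀ v : Fin k → ℤ,
      MeasurePreserving (shf v) (μ : Measure (Om k)) (μ : Measure (Om k)) := by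
    intro v
    refine ⟨(shf v).measurable, ?_⟩
    have h1 := ProbabilityMeasure.tendsto_map_of_tendsto_of_continuous μs μ hlim
      (shf_continuous v)
    have h2 : ∀ K, (μs K).map (shf_continuous v).measurable.aemeasurable = μs K := by
      intro K
      apply Subtype.ext
      show (emp (code (A K))).map (shf v) = emp (code (A K))
      apply emp_map (code (A K)) v
        (Equiv.piCongrRight fun i => Equiv.subRight (v i : ZMod (N K)))
      intro x
      rw [code_shift]
      rfl
    have h3 : Tendsto (fun i ↦ (μs i).map (shf_continuous v).measurable.aemeasurable)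
        (Filter.hyperfilter ℕ : Filter ℕ) (𝓝 μ) := by
      simp only [h2]
      exact hlim
    have h4 := tendsto_nhds_unique h1 h3
    have h5 := congrArg (fun ν : ProbabilityMeasure (Om k) => (ν : Measure (Om k))) h4
    simpa using h5
  refine ⟨(μ : Measure (Om k)), inferInstance, hinv, ?_, ?_⟩
  · have h1 := hclopen (cyl 0) (cyl_clopen 0)
    have h2 : c ≤ (μ : Measure (Om k)) (cyl 0) := ge_of_tendsto' h1 fun K => hA K
    exact lt_of_lt_of_le hc h2
  · intro n hn
    have hE : IsClopen ((cyl 0 : Set (Om k)) ∩ ⋂ j : Fin k, cyl (n • (Pi.single j 1))) :=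
      (cyl_clopen _).inter (isClopen_iInter_of_finite fun j => cyl_clopen _)
    have h1 := hclopen _ hE
    have h2 : ∀ᶠ K in (Filter.hyperfilter ℕ : Filter ℕ),
        (μs K : Measure (Om k)) ((cyl 0 : Set (Om k)) ∩ ⋂ j : Fin k, cyl (n • (Pi.single j 1)))
          = 0 := by
      have hev : ∀ᶠ K in (Filter.hyperfilter ℕ : Filter ℕ), n < K :=
        (Filter.eventually_gt_atTop n).filter_mono Nat.hyperfilter_le_atTop
      filter_upwards [hev] with K hK
      show emp (code (A K)) _ = 0
      rw [emp_apply _ hE.1.measurableSet]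
      have : (Finset.univ.filter fun x => code (A K) x ∈
          ((cyl 0 : Set (Om k)) ∩ ⋂ j : Fin k, cyl (n • (Pi.single j 1)))) = ∅ := by
        apply Finset.filter_eq_empty_iff.2
        intro x _ hx
        obtain ⟨h0, h1⟩ := hx
        have h0' := (code_iff (A K) x 0).1 h0
        apply hS K n hn hK x
        refine ⟨by simpa using h0', fun j => ?_⟩
        have h1' := (code_iff (A K) x (n • (Pi.single j 1))).1 (Set.mem_iInter.1 h1 j)
        convert h1' using 1
        funext i
        by_cases hij : i = j
        · subst hij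
          simp
        · rw [Function.update_of_ne hij]
          simp [Pi.single_eq_of_ne hij]
      rw [this]
      simp
    have h3 : Tendsto (fun i ↦ (μs i : Measure (Om k))
        ((cyl 0 : Set (Om k)) ∩ ⋂ j : Fin k, cyl (n • (Pi.single j 1))))
        (Filter.hyperfilter ℕ : Filter ℕ) (𝓝 0) := by
      apply tendsto_const_nhds.congr'
      filter_upwards [h2] with K hK
      exact hK.symm
    exact tendsto_nhds_unique h1 h3

end Pool.Agent.U373.KR
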