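import Pool.Agent.U373.KR.Alg
import Pool.Agent.U373.KR.Lim

/-!
The finite periodic sets without `k`-dimensional corners of side in the digit set.
-/

namespace Pool.Agent.U373.KR

open Finset
open Pool.Agent.Helper406.Rec (avg ind ind_true ind_false ind_nonneg ind_le_one avg_mono avg_const
  avg_sum avg_sub avg_pi_prod avg_prod Lam Lam_pos le_Lam dig GoodAt GoodAll dig_add dig_mod
  avg_bad avg_congr avg_equiv)

/-- the block `b` of the digit sequence `s` is active -/
def Act (r : ℕ) (s : ℕ → ℕ) (b : ℕ) : Prop :=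
  s ((r + 1) * b) = 4 ∧ ∀ l < r, s ((r + 1) * b + l + 1) = 1

instance (r : ℕ) (s : ℕ → ℕ) : DecidablePred (Act r s) := fun b => by
  unfold Act; infer_instance

/-- the return set; `r + 2` is the number of transformations -/
def InS (r N : ℕ) : Prop :=
  ∃ (M : ℕ) (s : ℕ → ℕ), (∀ i, s i = 0 ∨ s i = 1 ∨ s i = 3 ∨ s i = 4) ∧
    (∀ i, ¬ (r + 1) ∣ i → s i ≤ 1) ∧
    ¬ 3 ∣ ((range M).filter (fun b => Act r s b)).card ∧
    N = ∑ i ∈ range ((r + 1) * M), s i * Lam i

/-- normal form of the elements of the digit set below `K` -/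
lemma inS_normal {r n K : ℕ} (hn : InS r n) (hK : n < K) :
    ∃ s : ℕ → ℕ, (∀ i, s i = 0 ∨ s i = 1 ∨ s i = 3 ∨ s i = 4) ∧
      (∀ i, ¬ (r + 1) ∣ i → s i ≤ 1) ∧
      ¬ 3 ∣ ((range K).filter (fun b => Act r s b)).card ∧
      n = ∑ i ∈ range ((r + 1) * K), s i * Lam i := by
  classical
  obtain ⟨M, s, hs, hs1, h3, hsum⟩ := hn
  set t : ℕ → ℕ := fun i => if i < (r + 1) * M then s i else 0 with ht
  have htlt : ∀ i, i < (r + 1) * M → t i = s i := fun i hi => by simp only [ht, if_pos hi]
  have htge : ∀ i, ¬ i < (r + 1) * M → t i = 0 := fun i hi => by simp only [ht, if_neg hi]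
  have hn' : n = ∑ i ∈ range ((r + 1) * M), t i * Lam i := by
    rw [hsum]
    refine Finset.sum_congr rfl fun i hi => ?_
    rw [htlt i (Finset.mem_range.1 hi)]
  have hbig : ∀ i, t i ≠ 0 → i < K := by
    intro i hne
    have hi : i < (r + 1) * M := by
      by_contra h
      exact hne (htge i h)
    have h1 : t i * Lam i ≤ n := by
      rw [hn']
      exact Finset.single_le_sum (f := fun i => t i * Lam i) (fun _ _ => Nat.zero_le _)
        (Finset.mem_range.2 hi)
    have h2 : Lam i ≤ t i * Lam i := Nat.le_mul_of_pos_left _ (Nat.pos_of_ne_zero hne)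
    have h4 := le_Lam i
    omega
  have hbigK : ∀ i, t i ≠ 0 → i < (r + 1) * K := by
    intro i hne
    have h1 := hbig i hne
    nlinarith
  refine ⟨t, ?_, ?_, ?_, ?_⟩
  · intro i
    by_cases hi : i < (r + 1) * M
    · rw [htlt i hi]; exact hs i
    · rw [htge i hi]; left; rfl
  · intro i hd
    by_cases hi : i < (r + 1) * M
    · rw [htlt i hi]; exact hs1 i hd
    · rw [htge i hi]; omega
  · have : (range K).filter (fun b => Act r t b) = (range M).filter (fun b => Act r s b) := by
      ext b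
      simp only [Finset.mem_filter, Finset.mem_range]
      constructor
      · rintro ⟨_, h4, hl⟩
        have hb : (r + 1) * b < (r + 1) * M := by
          by_contra h
          rw [htge _ h] at h4
          omega
        have hbM : b < M := lt_of_mul_lt_mul_left hb (Nat.zero_le _)
        refine ⟨hbM, ?_, ?_⟩
        · rw [← htlt _ hb]; exact h4
        · intro l hlr
          rw [← htlt ((r + 1) * b + l + 1)]
          · exact hl l hlr
          · have : (r + 1) * (b + 1) ≤ (r + 1) * M := Nat.mul_le_mul_left _ hbM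
            nlinarith
      · rintro ⟨hbM, h4, hl⟩
        have hb1 : (r + 1) * (b + 1) ≤ (r + 1) * M := Nat.mul_le_mul_left _ hbM
        have h4' : t ((r + 1) * b) = 4 := by
          rw [htlt _ (by nlinarith)]; exact h4
        refine ⟨?_, h4', ?_⟩
        · have h5 := hbig ((r + 1) * b) (by omega)
          nlinarith
        · intro l hlr
          rw [htlt _ (by nlinarith)]
          exact hl l hlr
    rw [this]; exact h3
  · rw [hn']
    have e1 : ∑ i ∈ range ((r + 1) * M), t i * Lam i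
        = ∑ i ∈ range ((r + 1) * M + (r + 1) * K), t i * Lam i := by
      apply Finset.sum_subset
      · intro i hi
        rw [Finset.mem_range] at hi ⊢
        omega
      · intro i _ hi
        rw [Finset.mem_range] at hi
        rw [htge i hi, zero_mul]
    have e2 : ∑ i ∈ range ((r + 1) * K), t i * Lam i
        = ∑ i ∈ range ((r + 1) * M + (r + 1) * K), t i * Lam i := by
      apply Finset.sum_subset
      · intro i hi
        rw [Finset.mem_range] at hi ⊢
        omega
      · intro i _ hi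
        rw [Finset.mem_range] at hi
        have : t i = 0 := by
          by_contra hne
          exact hi (hbigK i hne)
        rw [this, zero_mul]
    rw [e1, e2]

/-- digit vector of the block `b` -/
def dv (r b x : ℕ) : Fin (r + 1) → ZMod 9 := fun l => dig ((r + 1) * b + l) x

/-- the shift of the digit vector -/
def sv (r b : ℕ) (s : ℕ → ℕ) : Fin (r + 1) → ZMod 9 := fun l => (s ((r + 1) * b + l) : ZMod 9)

lemma not_dvd_pos (r b l : ℕ) (hl : l < r) : ¬ (r + 1) ∣ (r + 1) * b + l + 1 := by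
  intro h
  have h1 : (r + 1) ∣ (r + 1) * b := Dvd.intro _ rfl
  have h2 : (r + 1) ∣ l + 1 := (Nat.dvd_add_right h1).1 (by rw [← add_assoc]; exact h)
  have := Nat.le_of_dvd (by omega) h2
  omega

lemma sv_mem {r : ℕ} (b : ℕ) {s : ℕ → ℕ} (hs : ∀ i, s i = 0 ∨ s i = 1 ∨ s i = 3 ∨ s i = 4)
    (hs1 : ∀ i, ¬ (r + 1) ∣ i → s i ≤ 1) : sv r b s ∈ Dg r := by
  refine ⟨?_, fun l => ?_⟩
  · have e0 : sv r b s 0 = ((s ((r + 1) * b) : ℕ) : ZMod 9) := rfl
    rw [e0]
    rcases hs ((r + 1) * b) with h | h | h | h <;> rw [h] <;> decide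
  · have h := hs1 ((r + 1) * b + l + 1) (not_dvd_pos r b l l.2)
    have h' : s ((r + 1) * b + l + 1) = 0 ∨ s ((r + 1) * b + l + 1) = 1 := by omega
    show ((s ((r + 1) * b + (l.succ : Fin (r + 1))) : ℕ) : ZMod 9) = 0 ∨
      ((s ((r + 1) * b + (l.succ : Fin (r + 1))) : ℕ) : ZMod 9) = 1
    rw [Fin.val_succ, ← add_assoc]
    rcases h' with h' | h' <;> simp [h']

lemma fr_sv {r : ℕ} (b : ℕ) {s : ℕ → ℕ} (hs : ∀ i, s i = 0 ∨ s i = 1 ∨ s i = 3 ∨ s i = 4)
    (hs1 : ∀ i, ¬ (r + 1) ∣ i → s i ≤ 1) :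
    fr r (sv r b s) = if Act r s b then 3 else 0 := by
  unfold fr
  have e0 : sv r b s 0 = (s ((r + 1) * b) : ZMod 9) := rfl
  have e1 : ∀ l : Fin r, sv r b s l.succ = (s ((r + 1) * b + l + 1) : ZMod 9) := by
    intro l
    show ((s ((r + 1) * b + (l.succ : Fin (r + 1))) : ℕ) : ZMod 9) = _
    rw [Fin.val_succ, ← add_assoc]
  rw [e0]
  have h4 : ((s ((r + 1) * b) : ZMod 9) = 4) ↔ s ((r + 1) * b) = 4 := by
    rcases hs ((r + 1) * b) with h | h | h | h <;> simp [h] <;> decide
  by_cases ha : Act r s b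
  · rw [if_pos ha, if_pos (h4.2 ha.1)]
    have : ∏ l : Fin r, sv r b s l.succ = 1 := by
      apply Finset.prod_eq_one
      intro l _
      rw [e1, ha.2 l l.2]
      norm_num
    rw [this, mul_one]
  · rw [if_neg ha]
    by_cases h0 : s ((r + 1) * b) = 4
    · have : ∃ l, l < r ∧ s ((r + 1) * b + l + 1) ≠ 1 := by
        by_contra hcon
        push Not at hcon
        exact ha ⟨h0, hcon⟩
      obtain ⟨l, hl, hne⟩ := this
      have h := hs1 ((r + 1) * b + l + 1) (not_dvd_pos r b l hl)
      have hz : s ((r + 1) * b + l + 1) = 0 := by omega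
      have : ∏ l : Fin r, sv r b s l.succ = 0 := by
        apply Finset.prod_eq_zero (Finset.mem_univ (⟨l, hl⟩ : Fin r))
        rw [e1]
        simp [hz]
      rw [this, mul_zero]
    · rw [if_neg (fun h => h0 (h4.1 h)), zero_mul]

/-- the sets -/
def AA (r K : ℕ) (F : Fin (r + 2) → (Fin (r + 2) → (Fin (r + 1) → ZMod 9)) → ZMod 9)
    (g : Fin (r + 2) → ZMod 9) (x : Fin (r + 2) → ZMod (Lam ((r + 1) * K))) : Prop :=
  (∀ j, GoodAll ((r + 1) * K) (x j).val) ∧
    ∀ j, ∑ b ∈ range K, F j (fun i => dv r b (x i).val) = g j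

/-- the density -/
noncomputable def cc (r : ℕ) : ℝ := (3 / 4) ^ (r + 2) / 9 ^ (r + 2)

lemma cc_pos (r : ℕ) : 0 < cc r := by unfold cc; positivity

lemma exists_dense (r K : ℕ) (F : Fin (r + 2) → (Fin (r + 2) → (Fin (r + 1) → ZMod 9)) → ZMod 9) :
    ∃ g, cc r ≤ avg (fun x => ind (AA r K F g x)) := by
  classical
  by_contra hcon
  push Not at hcon
  have h1 : ∀ x : Fin (r + 2) → ZMod (Lam ((r + 1) * K)),
      ∏ j, ind (GoodAll ((r + 1) * K) (x j).val) ≤
        ∑ g : Fin (r + 2) → ZMod 9, ind (AA r K F g x) := by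
    intro x
    have hnn : 0 ≤ ∑ g : Fin (r + 2) → ZMod 9, ind (AA r K F g x) :=
      Finset.sum_nonneg fun p _ => ind_nonneg _
    by_cases ha : ∀ j, GoodAll ((r + 1) * K) (x j).val
    · rw [Finset.prod_eq_one fun j _ => ind_true (ha j)]
      have h2 : AA r K F (fun j => ∑ b ∈ range K, F j (fun i => dv r b (x i).val)) x :=
        ⟨ha, fun j => rfl⟩
      have h3 := Finset.single_le_sum (f := fun g : Fin (r + 2) → ZMod 9 => ind (AA r K F g x))
        (fun p _ => ind_nonneg _)
        (Finset.mem_univ (fun j => ∑ b ∈ range K, F j (fun i => dv r b (x i).val)))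
      rw [ind_true h2] at h3
      exact h3
    · push Not at ha
      obtain ⟨j, hj⟩ := ha
      rw [Finset.prod_eq_zero (Finset.mem_univ j) (ind_false hj)]
      exact hnn
  have h2 := avg_mono h1
  rw [avg_sum, avg_pi_prod (fun (_ : Fin (r + 2)) (y : ZMod (Lam ((r + 1) * K))) =>
    ind (GoodAll ((r + 1) * K) y.val))] at h2
  have h3 : (3 / 4 : ℝ) ≤ avg (fun y : ZMod (Lam ((r + 1) * K)) =>
      ind (GoodAll ((r + 1) * K) y.val)) := by
    have h4 := avg_bad ((r + 1) * K)
    have h5 : avg (fun y : ZMod (Lam ((r + 1) * K)) => ind (GoodAll ((r + 1) * K) y.val))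
        = avg (fun y : ZMod (Lam ((r + 1) * K)) =>
          (1 : ℝ) - ind (¬ GoodAll ((r + 1) * K) y.val)) := by
      apply avg_congr
      intro y
      rw [Pool.Agent.Helper406.Rec.ind_not]
      ring
    rw [h5, avg_sub, avg_const]
    linarith
  have h6 : (3 / 4 : ℝ) ^ (r + 2) ≤ ∏ _j : Fin (r + 2), avg (fun y : ZMod (Lam ((r + 1) * K)) =>
      ind (GoodAll ((r + 1) * K) y.val)) := by
    rw [Finset.prod_const, Finset.card_univ, Fintype.card_fin]
    exact pow_le_pow_left₀ (by norm_num) h3 _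
  have h7 : ∑ g : Fin (r + 2) → ZMod 9, avg (fun x => ind (AA r K F g x)) <
      ∑ _g : Fin (r + 2) → ZMod 9, cc r :=
    Finset.sum_lt_sum_of_nonempty Finset.univ_nonempty fun p _ => hcon p
  have h8 : ∑ _g : Fin (r + 2) → ZMod 9, cc r = (3 / 4 : ℝ) ^ (r + 2) := by
    rw [Finset.sum_const, Finset.card_univ, Fintype.card_fun, ZMod.card, Fintype.card_fin, cc,
      nsmul_eq_mul]
    push_cast
    field_simp
  linarith

lemma no_corner (r K : ℕ) (F : Fin (r + 2) → (Fin (r + 2) → (Fin (r + 1) → ZMod 9)) → ZMod 9)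
    (hF : ∀ (X : Fin (r + 2) → (Fin (r + 1) → ZMod 9)), ∀ σ ∈ Dg r,
      fr r σ = ∑ j, (F j (Function.update X j (X j + σ)) - F j X))
    (g : Fin (r + 2) → ZMod 9) (n : ℕ) (hn : InS r n) (hK : n < K)
    (x : Fin (r + 2) → ZMod (Lam ((r + 1) * K))) :
    ¬ (AA r K F g x ∧ ∀ j, AA r K F g (Function.update x j (x j + n))) := by
  classical
  rintro ⟨⟨hgood, hg⟩, hall⟩
  obtain ⟨s, hs, hs1, h3, hsum⟩ := inS_normal hn hK
  have hs4 : ∀ j, s j ≤ 4 := by
    intro j
    rcases hs j with h | h | h | h <;> omega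
  have hval : ∀ y : ZMod (Lam ((r + 1) * K)), (y + (n : ZMod (Lam ((r + 1) * K)))).val
      = (y.val + n) % Lam ((r + 1) * K) := by
    intro y
    rw [ZMod.val_add, ZMod.val_natCast, Nat.add_mod_mod]
  have hdv : ∀ y : ZMod (Lam ((r + 1) * K)), GoodAll ((r + 1) * K) y.val → ∀ b ∈ range K,
      dv r b (y + (n : ZMod (Lam ((r + 1) * K)))).val = dv r b y.val + sv r b s := by
    intro y hy b hb
    rw [Finset.mem_range] at hb
    funext l
    have hi : (r + 1) * b + l < (r + 1) * K := by
      have h1 : (r + 1) * (b + 1) ≤ (r + 1) * K := Nat.mul_le_mul_left _ hb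
      have h2 := l.2
      nlinarith
    show dig ((r + 1) * b + l) (y + (n : ZMod (Lam ((r + 1) * K)))).val = dig _ y.val + _
    rw [hval, dig_mod _ _ _ hi, hsum]
    exact dig_add ((r + 1) * K) _ y.val s hs4 hi (hy _ hi)
  have key : ∑ b ∈ range K, fr r (sv r b s) = 0 := by
    have e1 : ∑ b ∈ range K, fr r (sv r b s) = ∑ j : Fin (r + 2), (∑ b ∈ range K,
        (F j (Function.update (fun i => dv r b (x i).val) j (dv r b (x j).val + sv r b s))
          - F j (fun i => dv r b (x i).val))) := by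
      rw [Finset.sum_comm]
      refine Finset.sum_congr rfl fun b _ => ?_
      exact hF (fun i => dv r b (x i).val) (sv r b s) (sv_mem b hs hs1)
    rw [e1]
    apply Finset.sum_eq_zero
    intro j _
    rw [Finset.sum_sub_distrib, hg j, sub_eq_zero]
    rw [← (hall j).2 j]
    refine Finset.sum_congr rfl fun b hb => ?_
    congr 1
    funext i
    by_cases hij : i = j
    · subst hij
      rw [Function.update_self, Function.update_self, hdv (x i) (hgood i) b hb]
    · rw [Function.update_of_ne hij, Function.update_of_ne hij]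
  rw [Finset.sum_congr rfl fun b _ => fr_sv b hs hs1, ← Finset.sum_filter, Finset.sum_const] at key
  have e3 : ((((range K).filter (fun b => Act r s b)).card * 3 : ℕ) : ZMod 9) = 0 := by
    rw [nsmul_eq_mul] at key
    push_cast
    exact key
  rw [ZMod.natCast_eq_zero_iff] at e3
  apply h3
  omega

lemma emp_ge (r K : ℕ) (F : Fin (r + 2) → (Fin (r + 2) → (Fin (r + 1) → ZMod 9)) → ZMod 9)
    (g : Fin (r + 2) → ZMod 9) (hd : cc r ≤ avg (fun x => ind (AA r K F g x))) :
    ENNReal.ofReal (cc r) ≤ emp (code (AA r K F g)) (cyl 0) := by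
  classical
  rw [emp_apply _ (cyl_clopen 0).1.measurableSet]
  have h1 : (Finset.univ.filter fun x => code (AA r K F g) x ∈ (cyl 0 : Set (Om (r + 2))))
      = Finset.univ.filter fun x => AA r K F g x := by
    ext x
    simp only [Finset.mem_filter, Finset.mem_univ, true_and]
    have h2 := code_iff (AA r K F g) x 0
    show code (AA r K F g) x 0 = true ↔ AA r K F g x
    simpa using h2
  rw [h1]
  have h2 : avg (fun x => ind (AA r K F g x))
      = ((Finset.univ.filter fun x => AA r K F g x).card : ℝ)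
        / (Fintype.card (Fin (r + 2) → ZMod (Lam ((r + 1) * K))) : ℝ) := by
    unfold avg
    congr 1
    rw [Finset.card_filter]
    push_cast
    apply Finset.sum_congr rfl
    intro x _
    by_cases hx : AA r K F g x
    · rw [ind_true hx, if_pos hx]
    · rw [ind_false hx, if_neg hx]
  rw [h2] at hd
  have hc : (0:ℝ) < (Fintype.card (Fin (r + 2) → ZMod (Lam ((r + 1) * K))) : ℝ) := by
    exact_mod_cast Fintype.card_pos
  have h3 : (((Fintype.card (Fin (r + 2) → ZMod (Lam ((r + 1) * K))) : ℕ) : ENNReal))⁻¹ *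
      ((Finset.univ.filter fun x => AA r K F g x).card : ENNReal)
      = ENNReal.ofReal (((Finset.univ.filter fun x => AA r K F g x).card : ℝ)
        / (Fintype.card (Fin (r + 2) → ZMod (Lam ((r + 1) * K))) : ℝ)) := by
    rw [ENNReal.ofReal_div_of_pos hc, ENNReal.ofReal_natCast, ENNReal.ofReal_natCast, mul_comm,
      div_eq_mul_inv]
  rw [h3]
  exact ENNReal.ofReal_le_ofReal hd

/-- the commuting transformations without return times in the digit set -/
theorem negative (r : ℕ) : ∃ μ : MeasureTheory.Measure (Om (r + 2)),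
    MeasureTheory.IsProbabilityMeasure μ ∧
    (∀ v, MeasureTheory.MeasurePreserving (shf v) μ μ) ∧
    0 < μ (cyl 0) ∧ ∀ n, InS r n → μ (cyl 0 ∩ ⋂ j, cyl (n • (Pi.single j 1))) = 0 := by
  obtain ⟨F, hF⟩ := fr_rep r
  refine limit_system (InS r) (ENNReal.ofReal (cc r)) (ENNReal.ofReal_pos.2 (cc_pos r)) ?_
  intro K
  obtain ⟨g, hd⟩ := exists_dense r K F
  exact ⟨Lam ((r + 1) * K), inferInstance, AA r K F g, emp_ge r K F g hd,
    fun n hn hK x => no_corner r K F hF g n hn hK x⟩

end Pool.Agent.U373.KR
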