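import Pool.Agent.U373.KR.Gad
import Pool.Agent.U373.KR.NegK
import Pool.Agent.Helper903.DHJ

/-!
Positivity: the digit set is a set of `r + 2`-recurrence.
-/

namespace Pool.Agent.U373.KR

open Finset MeasureTheory
open Pool.Agent.Helper406.Rec (avg ind ind_true ind_false ind_nonneg ind_le_one
  integral_ind integrable_ind avg_mono avg_const avg_le_one avg_sum avg_mul_left avg_congr
  avg_restrict' Lam exists_zeta)

universe u

section szem
variable {X : Type u} [MeasurableSpace X] {μ : Measure X} [IsProbabilityMeasure μ]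
  (S : ZAct μ) (k : ℕ) (A : Set X)

/-- the return function -/
noncomputable def nuK (N : ℤ) : ℝ :=
  μ.real {x | ∀ j : Fin (k + 1), S.P (((j : ℕ) : ℤ) * N) x ∈ A}

lemma nuK_nonneg (N : ℤ) : 0 ≤ nuK S k A N := measureReal_nonneg

variable {A}

lemma meas_P (hA : MeasurableSet A) (m : ℤ) : MeasurableSet {x | S.P m x ∈ A} :=
  (S.mp m).measurable hA

lemma meas_all (hA : MeasurableSet A) (g : Fin (k + 1) → ℤ) :
    MeasurableSet {x | ∀ j : Fin (k + 1), S.P (g j) x ∈ A} := by
  have : {x | ∀ j : Fin (k + 1), S.P (g j) x ∈ A} = ⋂ j, {x | S.P (g j) x ∈ A} := by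
    ext x; simp
  rw [this]
  exact MeasurableSet.iInter fun j => meas_P S hA _

lemma shifted (hA : MeasurableSet A) (N b : ℤ) :
    μ.real {x | ∀ j : Fin (k + 1), S.P (((j : ℕ) : ℤ) * N + b) x ∈ A} = nuK S k A N := by
  have h1 : {x | ∀ j : Fin (k + 1), S.P (((j : ℕ) : ℤ) * N + b) x ∈ A}
      = S.P b ⁻¹' {x | ∀ j : Fin (k + 1), S.P (((j : ℕ) : ℤ) * N) x ∈ A} := by
    ext x
    simp only [Set.mem_ofPred_eq, Set.mem_preimage, S.add]
  rw [h1, nuK]
  have h2 := (S.mp b).measure_preimage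
    (s := {x | ∀ j : Fin (k + 1), S.P (((j : ℕ) : ℤ) * N) x ∈ A})
    (meas_all S k hA _).nullMeasurableSet
  unfold Measure.real
  rw [h2]

/-- base point of a line -/
def bs {k d : ℕ} (φ : Fin d → Option (Fin (k + 1))) (e : Fin d → ℤ) : ℤ :=
  ∑ j, (φ j).elim 0 (fun c => ((c : ℕ) : ℤ) * e j)

/-- step of a line -/
def st {k d : ℕ} (φ : Fin d → Option (Fin (k + 1))) (e : Fin d → ℤ) : ℤ :=
  ∑ j, (φ j).elim (e j) (fun _ => 0)

lemma line_sum {k d : ℕ} (L : Combinatorics.Line (Fin (k + 1)) (Fin d)) (e : Fin d → ℤ)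
    (a : Fin (k + 1)) :
    ∑ j, (((L a j : Fin (k + 1)) : ℕ) : ℤ) * e j
      = ((a : ℕ) : ℤ) * st L.idxFun e + bs L.idxFun e := by
  unfold st bs
  rw [Finset.mul_sum, ← Finset.sum_add_distrib]
  apply Finset.sum_congr rfl
  intro j _
  rw [Combinatorics.Line.apply_def]
  cases h : L.idxFun j with
  | none => simp [h]
  | some c => simp [h]

theorem ip_szem (hA : MeasurableSet A) (δ : ℝ) (hδ : 0 < δ)
    (hμ : δ ≤ μ.real A) (d : ℕ)
    (hd : ∀ D : (Fin d → Fin (k + 1)) → Prop, δ / 2 ≤ avg (fun x => ind (D x)) →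
      ∃ L : Combinatorics.Line (Fin (k + 1)) (Fin d), ∀ a, D (L a))
    (e : Fin d → ℤ) :
    δ / 2 ≤ ∑ φ : Fin d → Option (Fin (k + 1)), ind (∃ j, φ j = none) *
      nuK S k A (st φ e) := by
  classical
  set B : (Fin d → Fin (k + 1)) → Set X := fun z =>
    {x | S.P (∑ j, (((z j : Fin (k + 1)) : ℕ) : ℤ) * e j) x ∈ A} with hB
  set C : (Fin d → Option (Fin (k + 1))) → Set X := fun φ =>
    {x | ∀ j : Fin (k + 1), S.P (((j : ℕ) : ℤ) * st φ e + bs φ e) x ∈ A} with hC
  have hBm : ∀ z, MeasurableSet (B z) := fun z => meas_P S hA _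
  have hCm : ∀ φ, MeasurableSet (C φ) := fun φ => meas_all S k hA _
  have hBμ : ∀ z, μ.real (B z) = μ.real A := by
    intro z
    have h1 := (S.mp (∑ j, (((z j : Fin (k + 1)) : ℕ) : ℤ) * e j)).measure_preimage
      hA.nullMeasurableSet
    unfold Measure.real
    rw [← h1]
    rfl
  have hCμ : ∀ φ, μ.real (C φ) = nuK S k A (st φ e) := fun φ => shifted S k hA _ _
  have hpt : ∀ x, avg (fun z : Fin d → Fin (k + 1) => ind (x ∈ B z)) ≤ δ / 2 +
      ∑ φ : Fin d → Option (Fin (k + 1)), ind (∃ j, φ j = none) * ind (x ∈ C φ) := by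
    intro x
    have hnn : ∀ φ : Fin d → Option (Fin (k + 1)), 0 ≤ ind (∃ j, φ j = none) * ind (x ∈ C φ) :=
      fun φ => mul_nonneg (ind_nonneg _) (ind_nonneg _)
    by_cases hx : δ / 2 ≤ avg (fun z : Fin d → Fin (k + 1) => ind (x ∈ B z))
    · obtain ⟨L, hL⟩ := hd (fun z => x ∈ B z) hx
      have h1 : x ∈ C L.idxFun := by
        intro a
        have g0 := hL a
        simp only [hB, Set.mem_ofPred_eq, line_sum] at g0
        exact g0
      have h2 : ∃ j, L.idxFun j = none := L.proper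
      have h3 : ind (∃ j, L.idxFun j = none) * ind (x ∈ C L.idxFun) ≤
          ∑ φ : Fin d → Option (Fin (k + 1)), ind (∃ j, φ j = none) * ind (x ∈ C φ) :=
        Finset.single_le_sum (f := fun φ : Fin d → Option (Fin (k + 1)) =>
          ind (∃ j, φ j = none) * ind (x ∈ C φ)) (fun φ _ => hnn φ) (Finset.mem_univ L.idxFun)
      rw [ind_true h1, ind_true h2] at h3
      have h4 : avg (fun z : Fin d → Fin (k + 1) => ind (x ∈ B z)) ≤ 1 :=
        avg_le_one fun z => ind_le_one _
      linarith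
    · push Not at hx
      have := Finset.sum_nonneg (s := Finset.univ) fun φ _ => hnn φ
      linarith
  have hi1 : Integrable (fun x => avg (fun z : Fin d → Fin (k + 1) => ind (x ∈ B z))) μ := by
    unfold avg
    apply Integrable.div_const
    apply integrable_finsetSum
    intro z _
    exact integrable_ind μ (hBm z)
  have hi2 : Integrable (fun x => δ / 2 +
      ∑ φ : Fin d → Option (Fin (k + 1)), ind (∃ j, φ j = none) * ind (x ∈ C φ)) μ := by
    apply Integrable.add (integrable_const _)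
    apply integrable_finsetSum
    intro φ _
    exact (integrable_ind μ (hCm φ)).const_mul _
  have h1 := integral_mono hi1 hi2 hpt
  have e1 : ∫ x, avg (fun z : Fin d → Fin (k + 1) => ind (x ∈ B z)) ∂μ = μ.real A := by
    unfold avg
    rw [integral_div, integral_finsetSum]
    · have : ∀ z ∈ (Finset.univ : Finset (Fin d → Fin (k + 1))),
          ∫ x, ind (x ∈ B z) ∂μ = μ.real A := by
        intro z _
        rw [integral_ind μ (hBm z), hBμ]
      rw [Finset.sum_congr rfl this]
      exact avg_const (Ω := (Fin d → Fin (k + 1))) (μ.real A)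
    · intro z _
      exact integrable_ind μ (hBm z)
  have e2 : ∫ x, (δ / 2 + ∑ φ : Fin d → Option (Fin (k + 1)),
      ind (∃ j, φ j = none) * ind (x ∈ C φ)) ∂μ
      = δ / 2 + ∑ φ : Fin d → Option (Fin (k + 1)), ind (∃ j, φ j = none) *
          nuK S k A (st φ e) := by
    rw [integral_add (integrable_const _), integral_finsetSum]
    · congr 1
      · simp
      · apply Finset.sum_congr rfl
        intro φ _
        rw [integral_const_mul, integral_ind μ (hCm φ), hCμ]
    · intro φ _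
      exact (integrable_ind μ (hCm φ)).const_mul _
    · apply integrable_finsetSum
      intro φ _
      exact (integrable_ind μ (hCm φ)).const_mul _
  rw [e1, e2] at h1
  linarith

/-- the density Hales-Jewett theorem in the present language -/
lemma dhj_words (k : ℕ) (δ : ℝ) (hδ : 0 < δ) : ∃ d : ℕ,
    ∀ D : (Fin d → Fin (k + 1)) → Prop, δ ≤ avg (fun x => ind (D x)) →
      ∃ L : Combinatorics.Line (Fin (k + 1)) (Fin d), ∀ a, D (L a) := by
  obtain ⟨n, hn⟩ := Pool.Agent.Helper903.DHJ.ldhj (Fin (k + 1)) δ hδ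
  refine ⟨n, fun D hD => ?_⟩
  obtain ⟨L, hL⟩ := hn {x | D x} (by
    refine hD.trans (le_of_eq ?_)
    unfold avg Pool.Agent.Helper903.DHJ.dens Pool.Agent.Helper903.DHJ.avg
    congr 1)
  exact ⟨L, hL⟩

/-- correlations of an indicator function -/
lemma II_ind (hA : MeasurableSet A) (N : ℤ) :
    II S (fun (_ : Fin (k + 1)) x => ((ind (x ∈ A) : ℝ) : ℂ)) N = ((nuK S k A N : ℝ) : ℂ) := by
  classical
  unfold II nuK
  have h1 : ∀ x, ∏ j : Fin (k + 1), ((ind (S.P (((j : ℕ) : ℤ) * N) x ∈ A) : ℝ) : ℂ)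
      = ((ind (x ∈ {x | ∀ j : Fin (k + 1), S.P (((j : ℕ) : ℤ) * N) x ∈ A}) : ℝ) : ℂ) := by
    intro x
    by_cases h : ∀ j : Fin (k + 1), S.P (((j : ℕ) : ℤ) * N) x ∈ A
    · rw [ind_true (show x ∈ {x | ∀ j : Fin (k + 1), S.P (((j : ℕ) : ℤ) * N) x ∈ A} from h)]
      rw [Finset.prod_eq_one fun j _ => by rw [ind_true (h j)]; simp]
      simp
    · rw [ind_false (show x ∉ {x | ∀ j : Fin (k + 1), S.P (((j : ℕ) : ℤ) * N) x ∈ A} from h)]
      push Not at h
      obtain ⟨j, hj⟩ := h
      rw [Finset.prod_eq_zero (Finset.mem_univ j) (by rw [ind_false hj]; simp)]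
      simp
  simp only [h1]
  rw [integral_complex_ofReal, integral_ind μ (meas_all S k hA _)]

lemma Bd_ind (hA : MeasurableSet A) : Bd (fun x => ((ind (x ∈ A) : ℝ) : ℂ)) := by
  classical
  refine ⟨?_, fun x => ?_⟩
  · have h : (fun x => ((ind (x ∈ A) : ℝ) : ℂ)) = A.indicator (fun _ => (1 : ℂ)) := by
      funext x
      by_cases hx : x ∈ A
      · rw [ind_true hx, Set.indicator_of_mem hx]; simp
      · rw [ind_false hx, Set.indicator_of_notMem hx]; simp
    rw [h]
    exact measurable_const.indicator hA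
  · rw [Complex.norm_real, Real.norm_of_nonneg (ind_nonneg _)]
    exact ind_le_one _

end szem

/-! ### words with values in the digit set -/

lemma sum_blocks (r M : ℕ) (f : ℕ → ℕ) :
    ∑ i ∈ range ((r + 1) * M), f i = ∑ b ∈ range M, ∑ l : Fin (r + 1), f ((r + 1) * b + l) := by
  induction M with
  | zero => simp
  | succ M ih =>
    rw [Nat.mul_succ, Finset.sum_range_add, ih,
      Finset.sum_range_succ (fun b => ∑ l : Fin (r + 1), f ((r + 1) * b + l)) M]
    congr 1
    exact (Fin.sum_univ_eq_sum_range (fun l => f ((r + 1) * M + l)) (r + 1)).symm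

lemma inS_of {r : ℕ} {ι : Type} [Fintype ι] [DecidableEq ι] (g : ι → ℕ)
    (hg : Function.Injective g) (D : ι → Fin (r + 1) → ℕ)
    (hD : ∀ q, (D q 0 = 0 ∨ D q 0 = 1 ∨ D q 0 = 3 ∨ D q 0 = 4) ∧ ∀ l : Fin r, D q l.succ ≤ 1)
    (h3 : ¬ 3 ∣ (Finset.univ.filter (fun q => D q 0 = 4 ∧ ∀ l : Fin r, D q l.succ = 1)).card) :
    InS r (∑ q, ∑ l : Fin (r + 1), D q l * Lam ((r + 1) * g q + l)) := by
  classical
  set E : ℕ → Fin (r + 1) → ℕ := Function.extend g D (fun _ _ => 0) with hE
  have hEg : ∀ q, E (g q) = D q := fun q => hg.extend_apply D _ q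
  have hEn : ∀ b, (¬ ∃ q, g q = b) → E b = fun _ => 0 := fun b hb =>
    Function.extend_apply' D _ b hb
  have hEcases : ∀ b, (∃ q, g q = b ∧ E b = D q) ∨ E b = fun _ => 0 := by
    intro b
    by_cases hb : ∃ q, g q = b
    · obtain ⟨q, rfl⟩ := hb
      exact Or.inl ⟨q, rfl, hEg q⟩
    · exact Or.inr (hEn b hb)
  have hlt : ∀ i, i % (r + 1) < r + 1 := fun i => Nat.mod_lt _ (Nat.succ_pos r)
  set s : ℕ → ℕ := fun i => E (i / (r + 1)) ⟨i % (r + 1), hlt i⟩ with hs
  have hsb : ∀ b (l : Fin (r + 1)), s ((r + 1) * b + l) = E b l := by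
    intro b l
    have e1 : ((r + 1) * b + (l : ℕ)) / (r + 1) = b := by
      rw [Nat.mul_add_div (Nat.succ_pos r), Nat.div_eq_of_lt l.2, add_zero]
    have e2 : ((r + 1) * b + (l : ℕ)) % (r + 1) = l := by
      rw [Nat.mul_add_mod, Nat.mod_eq_of_lt l.2]
    simp only [hs, e1]
    congr 1
    exact Fin.ext e2
  set M : ℕ := ∑ q, g q + 1 with hM
  have hgM : ∀ q, g q < M := by
    intro q
    have : g q ≤ ∑ q, g q := Finset.single_le_sum (f := g) (fun _ _ => Nat.zero_le _)
      (Finset.mem_univ q)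
    omega
  refine ⟨M, s, ?_, ?_, ?_, ?_⟩
  · intro i
    rcases hEcases (i / (r + 1)) with ⟨q, _, h⟩ | h
    · have h0 : s i = D q ⟨i % (r + 1), hlt i⟩ := by simp only [hs, h]
      rw [h0]
      by_cases hz : (⟨i % (r + 1), hlt i⟩ : Fin (r + 1)) = 0
      · rw [hz]; exact (hD q).1
      · obtain ⟨l, hl⟩ := Fin.exists_succ_eq.2 hz
        rw [← hl]
        have := (hD q).2 l
        omega
    · left
      simp only [hs, h]
  · intro i hi
    rcases hEcases (i / (r + 1)) with ⟨q, _, h⟩ | h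
    · have h0 : s i = D q ⟨i % (r + 1), hlt i⟩ := by simp only [hs, h]
      rw [h0]
      have hz : (⟨i % (r + 1), hlt i⟩ : Fin (r + 1)) ≠ 0 := by
        intro hz
        apply hi
        exact Nat.dvd_of_mod_eq_zero (congrArg Fin.val hz)
      obtain ⟨l, hl⟩ := Fin.exists_succ_eq.2 hz
      rw [← hl]
      exact (hD q).2 l
    · have : s i = 0 := by simp only [hs, h]
      omega
  · have hact : ∀ b, Act r s b ↔ (E b 0 = 4 ∧ ∀ l : Fin r, E b l.succ = 1) := by
      intro b
      unfold Act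
      have e0 : s ((r + 1) * b) = E b 0 := by
        have := hsb b 0
        simpa using this
      have e1 : ∀ l : Fin r, s ((r + 1) * b + l + 1) = E b l.succ := by
        intro l
        have := hsb b l.succ
        rwa [Fin.val_succ, ← add_assoc] at this
      rw [e0]
      constructor
      · rintro ⟨h1, h2⟩
        exact ⟨h1, fun l => by rw [← e1]; exact h2 l l.2⟩
      · rintro ⟨h1, h2⟩
        exact ⟨h1, fun l hl => by rw [e1 ⟨l, hl⟩]; exact h2 _⟩
    have h1 : (range M).filter (fun b => Act r s b)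
        = (Finset.univ.filter (fun q => D q 0 = 4 ∧ ∀ l : Fin r, D q l.succ = 1)).image g := by
      ext b
      simp only [Finset.mem_filter, Finset.mem_range, Finset.mem_image, Finset.mem_univ, true_and,
        hact]
      constructor
      · rintro ⟨_, h4, hl⟩
        rcases hEcases b with ⟨q, hq, h⟩ | h
        · rw [h] at h4 hl
          exact ⟨q, ⟨h4, hl⟩, hq⟩
        · rw [h] at h4
          exact absurd h4 (by norm_num)
      · rintro ⟨q, ⟨h4, hl⟩, rfl⟩
        rw [hEg]
        exact ⟨hgM q, h4, hl⟩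
    rw [h1, Finset.card_image_of_injective _ hg]
    exact h3
  · rw [sum_blocks]
    simp only [hsb]
    have h1 : ∑ b ∈ range M, ∑ l : Fin (r + 1), E b l * Lam ((r + 1) * b + l)
        = ∑ b ∈ Finset.univ.image g, ∑ l : Fin (r + 1), E b l * Lam ((r + 1) * b + l) := by
      symm
      apply Finset.sum_subset
      · intro b hb
        obtain ⟨q, _, rfl⟩ := Finset.mem_image.1 hb
        exact Finset.mem_range.2 (hgM q)
      · intro b _ hb
        have : ¬ ∃ q, g q = b := by
          rintro ⟨q, rfl⟩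
          exact hb (Finset.mem_image_of_mem g (Finset.mem_univ q))
        rw [hEn b this]
        simp
    rw [h1, Finset.sum_image (fun a _ b _ h => hg h)]
    refine Finset.sum_congr rfl fun q _ => ?_
    rw [hEg]

lemma prod_wg {r : ℕ} (ζ : ℂ) {ι : Type} [Fintype ι] (D : ι → Fin (r + 1) → ℕ) :
    ∏ q, wg r ζ (D q)
      = ζ ^ (Finset.univ.filter (fun q => D q 0 = 4 ∧ ∀ l : Fin r, D q l.succ = 1)).card := by
  classical
  unfold wg
  rw [Finset.prod_ite, Finset.prod_const, Finset.prod_const_one, mul_one]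

/-- **Positivity.** -/
theorem positivity (r : ℕ) {X : Type u} [MeasurableSpace X] {μ : Measure X}
    [IsProbabilityMeasure μ] (S : ZAct μ) {A : Set X} (hA : MeasurableSet A) (hpos : 0 < μ A) :
    ∃ N : ℕ, InS r N ∧ 0 < nuK S (r + 2) A N := by
  classical
  by_contra hcon
  push Not at hcon
  have hzero : ∀ N : ℕ, InS r N → nuK S (r + 2) A N = 0 := fun N hN =>
    le_antisymm (hcon N hN) (nuK_nonneg S (r + 2) A N)
  set δ : ℝ := μ.real A with hδdef
  have hδ : 0 < δ := by
    rw [hδdef, Measure.real]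
    exact ENNReal.toReal_pos hpos.ne' (measure_ne_top μ A)
  obtain ⟨ζ, hζ, hn⟩ := exists_zeta
  have hζ3 : ζ ^ 3 = 1 := by linear_combination (ζ - 1) * hζ
  obtain ⟨Ω, _, _, dg, B, hB0, hB1, hdg, hD⟩ := gadget.{u} ζ hζ hn r
  set C : ℝ := (Fintype.card Ω : ℝ) with hC
  have hC0 : 0 < C := by rw [hC]; exact_mod_cast Fintype.card_pos
  obtain ⟨d, hd⟩ := dhj_words (r + 2) (δ / 2) (by linarith)
  set c : ℝ := δ / 2 / (r + 4) ^ d with hc
  have hcpos : 0 < c := by positivity
  obtain ⟨m, hm⟩ : ∃ m : ℕ, (B / C) ^ m < c :=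
    exists_pow_lt_of_lt_one hcpos ((div_lt_one hC0).2 hB1)
  let idx : Fin d × Fin m → ℕ := fun p => (finProdFinEquiv p : ℕ)
  have hidx : Function.Injective idx := by
    intro p q hpq
    exact finProdFinEquiv.injective (Fin.ext hpq)
  let vv : Fin d × Fin m → Ω → ℤ := fun q ω =>
    ∑ l : Fin (r + 1), ((dg ω l : ℕ) : ℤ) * ((Lam ((r + 1) * idx q + l) : ℕ) : ℤ)
  let ee : (Fin d × Fin m → Ω) → Fin d → ℤ := fun t j => ∑ i : Fin m, vv (j, i) (t (j, i))
  have h1 : ∀ t, δ / 2 ≤ ∑ φ : Fin d → Option (Fin (r + 2 + 1)), ind (∃ j, φ j = none) *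
      nuK S (r + 2) A (st φ (ee t)) := by
    intro t
    exact ip_szem S (r + 2) hA δ hδ le_rfl d hd (ee t)
  have h2 : δ / 2 ≤ ∑ φ : Fin d → Option (Fin (r + 2 + 1)), ind (∃ j, φ j = none) *
      avg (fun t => nuK S (r + 2) A (st φ (ee t))) := by
    have h3 : avg (fun _ : Fin d × Fin m → Ω => δ / 2) ≤
        avg (fun t => ∑ φ : Fin d → Option (Fin (r + 2 + 1)), ind (∃ j, φ j = none) *
      nuK S (r + 2) A (st φ (ee t))) := avg_mono h1
    rw [avg_const, avg_sum] at h3
    refine h3.trans (le_of_eq ?_)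
    apply Finset.sum_congr rfl; intro φ _
    rw [avg_mul_left]
  obtain ⟨φ, hφ⟩ : ∃ φ : Fin d → Option (Fin (r + 2 + 1)), c ≤ ind (∃ j, φ j = none) *
      avg (fun t => nuK S (r + 2) A (st φ (ee t))) := by
    by_contra hcon2
    push Not at hcon2
    have h3 : ∑ φ : Fin d → Option (Fin (r + 2 + 1)), ind (∃ j, φ j = none) *
      avg (fun t => nuK S (r + 2) A (st φ (ee t)))
        < ∑ _φ : Fin d → Option (Fin (r + 2 + 1)), c :=
      Finset.sum_lt_sum_of_nonempty Finset.univ_nonempty fun φ _ => hcon2 φ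
    have h4 : ∑ _φ : Fin d → Option (Fin (r + 2 + 1)), c = δ / 2 := by
      rw [Finset.sum_const, Finset.card_univ, nsmul_eq_mul, Fintype.card_fun]
      simp only [Fintype.card_option, Fintype.card_fin]
      rw [hc]
      push_cast
      have : ((r : ℝ) + 2 + 1 + 1) = r + 4 := by ring
      rw [this]
      field_simp
    linarith
  have hline : ∃ j, φ j = none := by
    by_contra hno
    rw [ind_false hno, zero_mul] at hφ
    linarith
  rw [ind_true hline, one_mul] at hφ
  obtain ⟨j0, hj0⟩ := hline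
  -- the relevant coordinates
  have hst : ∀ t, st φ (ee t) = ∑ p : {p : Fin d × Fin m // φ p.1 = none}, vv p (t p) := by
    intro t
    unfold st
    have e1 : ∑ p : {p : Fin d × Fin m // φ p.1 = none}, vv p (t p)
        = ∑ p : Fin d × Fin m, if φ p.1 = none then vv p (t p) else 0 := by
      rw [← Finset.sum_filter]
      exact (Finset.sum_subtype (p := fun p : Fin d × Fin m => φ p.1 = none) _
        (by intro x; simp) (fun p : Fin d × Fin m => vv p (t p))).symm
    rw [e1, Fintype.sum_prod_type]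
    apply Finset.sum_congr rfl; intro j _
    cases hj : φ j with
    | none => simp [hj, ee]
    | some k => simp [hj]
  have h5 : avg (fun t => nuK S (r + 2) A (st φ (ee t)))
      = avg (fun t : {p : Fin d × Fin m // φ p.1 = none} → Ω =>
        nuK S (r + 2) A (∑ p : {p : Fin d × Fin m // φ p.1 = none}, vv p (t p))) := by
    rw [← avg_restrict' (fun p : Fin d × Fin m => φ p.1 = none)
      (fun t : {p : Fin d × Fin m // φ p.1 = none} → Ω =>
        nuK S (r + 2) A (∑ p : {p : Fin d × Fin m // φ p.1 = none}, vv p (t p)))]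
    apply avg_congr; intro t
    rw [hst]
  have h6 := hD X μ S {p : Fin d × Fin m // φ p.1 = none} (fun p => vv p)
    (fun p => ⟨fun l => ((Lam ((r + 1) * idx p + l) : ℕ) : ℤ), rfl⟩)
    (fun _ x => ((ind (x ∈ A) : ℝ) : ℂ)) (fun _ => Bd_ind hA)
  have h7 : ∑ t : {p : Fin d × Fin m // φ p.1 = none} → Ω,
      (∏ i, wg r ζ (dg (t i))) * II S (fun (_ : Fin (r + 3)) x => ((ind (x ∈ A) : ℝ) : ℂ))
        (∑ p : {p : Fin d × Fin m // φ p.1 = none}, vv p (t p))
      = ((∑ t : {p : Fin d × Fin m // φ p.1 = none} → Ω,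
        nuK S (r + 2) A (∑ p : {p : Fin d × Fin m // φ p.1 = none}, vv p (t p)) : ℝ) : ℂ) := by
    rw [Complex.ofReal_sum]
    refine Finset.sum_congr rfl fun t _ => ?_
    rw [II_ind S (r + 2) hA]
    by_cases hw : ∏ i, wg r ζ (dg (t i)) = 1
    · rw [hw, one_mul]
    · have hN : nuK S (r + 2) A
          (∑ p : {p : Fin d × Fin m // φ p.1 = none}, vv p (t p)) = 0 := by
        have e1 : ∑ p : {p : Fin d × Fin m // φ p.1 = none}, vv p (t p)
            = ((∑ p : {p : Fin d × Fin m // φ p.1 = none}, ∑ l : Fin (r + 1),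
              dg (t p) l * Lam ((r + 1) * idx p + l) : ℕ) : ℤ) := by
          push_cast
          rfl
        rw [e1]
        apply hzero
        apply inS_of (fun p : {p : Fin d × Fin m // φ p.1 = none} => idx p)
          (fun a b hab => Subtype.ext (hidx hab)) (fun p => dg (t p)) (fun p => hdg _)
        intro hdiv
        apply hw
        rw [prod_wg]
        obtain ⟨k, hk⟩ := hdiv
        rw [hk, pow_mul, hζ3, one_pow]
      rw [hN]
      simp
  rw [h7, Complex.norm_real] at h6
  have h8 := (le_abs_self _).trans h6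
  rw [h5] at hφ
  unfold avg at hφ
  have hCn : (Fintype.card ({p : Fin d × Fin m // φ p.1 = none} → Ω) : ℝ)
      = C ^ Fintype.card {p : Fin d × Fin m // φ p.1 = none} := by
    rw [Fintype.card_fun]
    push_cast
    rfl
  rw [hCn] at hφ
  have h9 : c ≤ (B / C) ^ Fintype.card {p : Fin d × Fin m // φ p.1 = none} := by
    refine hφ.trans ?_
    rw [div_pow]
    exact div_le_div_of_nonneg_right h8 (by positivity)
  have h10 : m ≤ Fintype.card {p : Fin d × Fin m // φ p.1 = none} := by
    have : Fintype.card (Fin m) ≤ Fintype.card {p : Fin d × Fin m // φ p.1 = none} := by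
      apply Fintype.card_le_of_injective
        (fun i : Fin m => (⟨(j0, i), hj0⟩ : {p : Fin d × Fin m // φ p.1 = none}))
      intro a b hab
      simpa using hab
    simpa using this
  have h11 : (B / C) ^ Fintype.card {p : Fin d × Fin m // φ p.1 = none} ≤ (B / C) ^ m :=
    pow_le_pow_of_le_one (by positivity) ((div_lt_one hC0).2 hB1).le h10
  linarith

end Pool.Agent.U373.KR
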