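import Pool.Agent.Helper406.Rec.Pos

/-!
Exponential decay of weighted multiple correlations along words of digits: one Cauchy-Schwarz step
adds a transformation and a digit.
-/

namespace Pool.Agent.U373.KR

open Finset MeasureTheory
open scoped ComplexConjugate

universe u

/-- a measure preserving action of the integers -/
structure ZAct {X : Type u} [MeasurableSpace X] (μ : Measure X) where
  P : ℤ → X → X
  zero : ∀ x, P 0 x = x
  add : ∀ j k x, P (j + k) x = P j (P k x)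
  mp : ∀ k, MeasurePreserving (P k) μ μ

/-- bounded measurable functions -/
def Bd {X : Type u} [MeasurableSpace X] (f : X → ℂ) : Prop := Measurable f ∧ ∀ x, ‖f x‖ ≤ 1

section basics
variable {X : Type u} [MeasurableSpace X] {μ : Measure X} [IsProbabilityMeasure μ]

lemma Bd.mul {f g : X → ℂ} (hf : Bd f) (hg : Bd g) : Bd (fun x => f x * g x) := by
  refine ⟨hf.1.mul hg.1, fun x => ?_⟩
  rw [norm_mul]
  exact mul_le_one₀ (hf.2 x) (norm_nonneg _) (hg.2 x)

lemma Bd.star {f : X → ℂ} (hf : Bd f) : Bd (fun x => conj (f x)) := by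
  refine ⟨Complex.continuous_conj.measurable.comp hf.1, fun x => ?_⟩
  rw [Complex.norm_conj]
  exact hf.2 x

lemma Bd.comp (S : ZAct μ) {f : X → ℂ} (hf : Bd f) (k : ℤ) : Bd (fun x => f (S.P k x)) :=
  ⟨hf.1.comp (S.mp k).measurable, fun _ => hf.2 _⟩

lemma Bd.prod {ι : Type} (s : Finset ι) {f : ι → X → ℂ} (hf : ∀ i, Bd (f i)) :
    Bd (fun x => ∏ i ∈ s, f i x) := by
  refine ⟨Finset.measurable_fun_prod _ fun i _ => (hf i).1, fun x => ?_⟩
  rw [norm_prod]
  exact Finset.prod_le_one (fun _ _ => norm_nonneg _) fun i _ => (hf i).2 x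

lemma Bd.integrable {f : X → ℂ} (hf : Bd f) : Integrable f μ :=
  Integrable.of_bound hf.1.aestronglyMeasurable 1 (Filter.Eventually.of_forall hf.2)

/-- multiple correlation -/
noncomputable def II (S : ZAct μ) {m : ℕ} (f : Fin m → X → ℂ) (N : ℤ) : ℂ :=
  ∫ x, ∏ j : Fin m, f j (S.P (((j : ℕ) : ℤ) * N) x) ∂μ

lemma inv_int (S : ZAct μ) {φ : X → ℂ} (hφ : Measurable φ) (k : ℤ) :
    ∫ x, φ (S.P k x) ∂μ = ∫ x, φ x ∂μ := by
  have h := (S.mp k).map_eq
  conv_rhs => rw [← h]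
  rw [integral_map (S.mp k).measurable.aemeasurable hφ.aestronglyMeasurable]

lemma II_add (S : ZAct μ) {m : ℕ} (f : Fin m → X → ℂ) (N c : ℤ) :
    II S f (N + c) = II S (fun j y => f j (S.P (((j : ℕ) : ℤ) * c) y)) N := by
  unfold II
  congr 1
  funext x
  refine Finset.prod_congr rfl fun j _ => ?_
  show f j (S.P (((j : ℕ) : ℤ) * (N + c)) x)
    = f j (S.P (((j : ℕ) : ℤ) * c) (S.P (((j : ℕ) : ℤ) * N) x))
  rw [← S.add, mul_add, add_comm]

end basics

/-- decay of weighted correlations -/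
def DecA (m : ℕ) (Ω : Type) [Fintype Ω] (w : Ω → ℂ) (V : Set (Ω → ℤ)) (B : ℝ) : Prop :=
  ∀ (X : Type u) [MeasurableSpace X] (μ : Measure X) [IsProbabilityMeasure μ] (S : ZAct μ)
    (ι : Type) [Fintype ι] [DecidableEq ι] (v : ι → Ω → ℤ), (∀ i, v i ∈ V) →
    ∀ f : Fin m → X → ℂ, (∀ j, Bd (f j)) →
      ‖∑ t : ι → Ω, (∏ i, w (t i)) * II S f (∑ i, v i (t i))‖ ≤ B ^ Fintype.card ι

section partialSum
variable {X : Type u} [MeasurableSpace X] {μ : Measure X} [IsProbabilityMeasure μ]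

/-- only some coordinates carry the weight -/
lemma partial_bound {m : ℕ} {Ω : Type} [Fintype Ω] {w : Ω → ℂ} {V : Set (Ω → ℤ)} {B : ℝ}
    (hD : DecA.{u} m Ω w V B) (S : ZAct μ) (ι : Type) [Fintype ι] [DecidableEq ι]
    (v : ι → Ω → ℤ) (hv : ∀ i, v i ∈ V) (f : Fin m → X → ℂ) (hf : ∀ j, Bd (f j))
    (p : ι → Prop) [DecidablePred p] (a : ι → Ω → ℂ) (ha : ∀ i, p i → ∀ ω, a i ω = w ω)
    (ha1 : ∀ i ω, ‖a i ω‖ ≤ 1) :
    ‖∑ t : ι → Ω, (∏ i, a i (t i)) * II S f (∑ i, v i (t i))‖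
      ≤ ∏ i, if p i then B else (Fintype.card Ω : ℝ) := by
  classical
  have h1 : ∑ t : ι → Ω, (∏ i, a i (t i)) * II S f (∑ i, v i (t i))
      = ∑ q : ({i // p i} → Ω) × ({i // ¬ p i} → Ω),
        (∏ i : {i // ¬ p i}, a i (q.2 i)) * ((∏ i : {i // p i}, w (q.1 i)) *
          II S f (∑ i : {i // p i}, v i (q.1 i) + ∑ i : {i // ¬ p i}, v i (q.2 i))) := by
    rw [← (Equiv.piEquivPiSubtypeProd p (fun _ => Ω)).sum_comp]
    refine Finset.sum_congr rfl fun t _ => ?_
    rw [← Fintype.prod_subtype_mul_prod_subtype p, ← Fintype.sum_subtype_add_sum_subtype p]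
    simp only [Equiv.piEquivPiSubtypeProd_apply]
    have : ∏ i : {i // p i}, a i (t i) = ∏ i : {i // p i}, w (t i) :=
      Finset.prod_congr rfl fun i _ => ha i i.2 _
    rw [this]
    ring
  rw [h1, Fintype.sum_prod_type_right]
  have h2 : ∀ t2 : {i // ¬ p i} → Ω,
      ‖∑ t1 : {i // p i} → Ω, (∏ i : {i // ¬ p i}, a i (t2 i)) * ((∏ i : {i // p i}, w (t1 i)) *
          II S f (∑ i : {i // p i}, v i (t1 i) + ∑ i : {i // ¬ p i}, v i (t2 i)))‖
        ≤ B ^ Fintype.card {i // p i} := by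
    intro t2
    rw [← Finset.mul_sum, norm_mul]
    have h3 : ‖∏ i : {i // ¬ p i}, a i (t2 i)‖ ≤ 1 := by
      rw [norm_prod]
      exact Finset.prod_le_one (fun _ _ => norm_nonneg _) fun i _ => ha1 _ _
    simp only [II_add]
    have h4 := hD X μ S {i // p i} (fun i => v i) (fun i => hv i)
      (fun j y => f j (S.P (((j : ℕ) : ℤ) * ∑ i : {i // ¬ p i}, v i (t2 i)) y))
      (fun j => (hf j).comp S _)
    calc _ ≤ 1 * B ^ Fintype.card {i // p i} :=
          mul_le_mul h3 h4 (norm_nonneg _) zero_le_one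
      _ = _ := one_mul _
  calc _ ≤ ∑ t2 : {i // ¬ p i} → Ω, B ^ Fintype.card {i // p i} :=
        (norm_sum_le _ _).trans (Finset.sum_le_sum fun t2 _ => h2 t2)
    _ = _ := by
        rw [Finset.sum_const, Finset.card_univ, Fintype.card_fun, nsmul_eq_mul, Finset.prod_ite,
          Finset.prod_const, Finset.prod_const, Fintype.card_subtype, Fintype.card_subtype]
        push_cast
        ring

end partialSum

/-- `(∫ g)² ≤ ∫ g²` -/
lemma sq_integral_le {X : Type u} [MeasurableSpace X] {μ : Measure X} [IsProbabilityMeasure μ]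
    {g : X → ℝ} (h1 : Integrable g μ) (h2 : Integrable (fun x => g x ^ 2) μ) :
    (∫ x, g x ∂μ) ^ 2 ≤ ∫ x, g x ^ 2 ∂μ := by
  set c := ∫ x, g x ∂μ with hc
  have h3 : 0 ≤ ∫ x, (g x - c) ^ 2 ∂μ := integral_nonneg fun x => sq_nonneg _
  have h4 : ∫ x, (g x - c) ^ 2 ∂μ = ∫ x, g x ^ 2 ∂μ - 2 * c * c + c ^ 2 := by
    have e : ∀ x, (g x - c) ^ 2 = g x ^ 2 - 2 * c * g x + c ^ 2 := fun x => by ring
    have hi : Integrable (fun x => g x ^ 2 - 2 * c * g x) μ := h2.sub (h1.const_mul (2 * c))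
    simp only [e]
    rw [integral_add hi (integrable_const _), integral_sub h2 (h1.const_mul (2 * c)),
      integral_const_mul]
    simp [← hc]
  rw [h4] at h3
  nlinarith

/-- product formula for sums over pairs of words -/
lemma sum_pairs {ι : Type} [Fintype ι] [DecidableEq ι] (φ : Fin 2 → Fin 2 → ℝ) :
    ∑ e : ι → Fin 2, ∑ e' : ι → Fin 2, ∏ i, φ (e i) (e' i)
      = (∑ a, ∑ b, φ a b) ^ Fintype.card ι := by
  have h1 : ∀ e : ι → Fin 2, ∑ e' : ι → Fin 2, ∏ i, φ (e i) (e' i) = ∏ i, ∑ b, φ (e i) b := by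
    intro e
    rw [Finset.prod_univ_sum, Fintype.piFinset_univ]
  simp only [h1]
  have h2 : ∑ e : ι → Fin 2, ∏ i, ∑ b, φ (e i) b = ∏ _i : ι, ∑ a, ∑ b, φ a b := by
    rw [Finset.prod_univ_sum, Fintype.piFinset_univ]
  rw [h2, Finset.prod_const, Finset.card_univ]

/-- the value functions of the step -/
def stepV {Ω : Type} (V : Set (Ω → ℤ)) : Set (Ω × Fin 2 → ℤ) :=
  {v' | ∃ v ∈ V, ∃ κ : ℤ, v' = fun q => v q.1 + ((q.2 : ℕ) : ℤ) * κ}

/-- the weight of the step -/
def stepW {Ω : Type} (w : Ω → ℂ) (q : Ω × Fin 2) : ℂ := if q.2 = 1 then w q.1 else 1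

theorem dec_step {m : ℕ} {Ω : Type} [Fintype Ω] {w : Ω → ℂ} {V : Set (Ω → ℤ)} {B : ℝ}
    (hw : ∀ ω, ‖w ω‖ = 1) (hB : 0 ≤ B) (hD : DecA.{u} m Ω w V B) :
    DecA.{u} (m + 1) (Ω × Fin 2) (stepW w) (stepV V)
      (Real.sqrt (Fintype.card Ω * (B + 3 * Fintype.card Ω))) := by
  classical
  intro X _ μ _ S ι _ _ v' hv' f hf
  choose v hv κ hκ using hv'
  set C : ℝ := (Fintype.card Ω : ℝ) with hC
  have hC0 : 0 ≤ C := Nat.cast_nonneg _
  set n := Fintype.card ι with hn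
  set M : (ι → Ω) → ℤ := fun t => ∑ i, v i (t i) with hM
  set c : (ι → Fin 2) → ℤ := fun e => ∑ i, ((e i : ℕ) : ℤ) * κ i with hc
  have hw' : ∀ q, ‖stepW w q‖ = 1 := by
    intro q
    unfold stepW
    split_ifs
    · exact hw _
    · simp
  -- splitting the words
  have h1 : ∑ t : ι → Ω × Fin 2, (∏ i, stepW w (t i)) * II S f (∑ i, v' i (t i))
      = ∑ t : ι → Ω, ∑ e : ι → Fin 2, (∏ i, stepW w (t i, e i)) * II S f (M t + c e) := by
    rw [← Fintype.sum_prod_type (f := fun q : (ι → Ω) × (ι → Fin 2) =>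
      (∏ i, stepW w (q.1 i, q.2 i)) * II S f (M q.1 + c q.2)),
      ← (Equiv.arrowProdEquivProdArrow ι (fun _ => Ω) (fun _ => Fin 2)).sum_comp]
    refine Finset.sum_congr rfl fun t _ => ?_
    simp only [Equiv.arrowProdEquivProdArrow, Equiv.coe_fn_mk, Prod.mk.eta, hκ, hM, hc,
      Finset.sum_add_distrib]
  rw [h1]
  -- the remaining functions
  set T : (ι → Ω) → (ι → Fin 2) → X → ℂ := fun t e x =>
    ∏ j : Fin m, f j.succ (S.P ((((j : ℕ) : ℤ) + 1) * (M t + c e)) x) with hT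
  have hTb : ∀ t e, Bd (T t e) := fun t e => Bd.prod _ fun j => (hf j.succ).comp S _
  set g : (ι → Ω) → X → ℂ := fun t x =>
    ∑ e : ι → Fin 2, (∏ i, stepW w (t i, e i)) * T t e x with hg
  have hgm : ∀ t, Measurable (g t) := by
    intro t
    exact Finset.measurable_fun_sum _ fun e _ => (hTb t e).1.const_mul _
  have hgb : ∀ t x, ‖g t x‖ ≤ Fintype.card (ι → Fin 2) := by
    intro t x
    calc ‖g t x‖ ≤ ∑ e : ι → Fin 2, ‖(∏ i, stepW w (t i, e i)) * T t e x‖ := norm_sum_le _ _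
      _ ≤ ∑ _e : ι → Fin 2, (1 : ℝ) := by
          refine Finset.sum_le_sum fun e _ => ?_
          rw [norm_mul, norm_prod, Finset.prod_eq_one fun i _ => hw' _, one_mul]
          exact (hTb t e).2 x
      _ = _ := by simp
  have hgi : ∀ t, Integrable (g t) μ := fun t =>
    Integrable.of_bound (hgm t).aestronglyMeasurable _ (Filter.Eventually.of_forall (hgb t))
  have hgni : ∀ t, Integrable (fun x => ‖g t x‖) μ := fun t => (hgi t).norm
  have hgn2 : ∀ t, Integrable (fun x => ‖g t x‖ ^ 2) μ := by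
    intro t
    refine Integrable.of_bound ((hgm t).norm.pow_const 2).aestronglyMeasurable
      ((Fintype.card (ι → Fin 2) : ℝ) ^ 2) (Filter.Eventually.of_forall fun x => ?_)
    rw [Real.norm_of_nonneg (by positivity)]
    exact pow_le_pow_left₀ (norm_nonneg _) (hgb t x) 2
  -- first function
  have h2 : ∀ t, ∑ e : ι → Fin 2, (∏ i, stepW w (t i, e i)) * II S f (M t + c e)
      = ∫ x, f 0 x * g t x ∂μ := by
    intro t
    have e1 : ∀ x, f 0 x * g t x
        = ∑ e : ι → Fin 2, (∏ i, stepW w (t i, e i)) * (f 0 x * T t e x) := by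
      intro x
      rw [hg]
      simp only
      rw [Finset.mul_sum]
      refine Finset.sum_congr rfl fun e _ => ?_
      ring
    simp only [e1]
    rw [integral_finsetSum _ fun e _ => (((hf 0).mul (hTb t e)).integrable).const_mul _]
    refine Finset.sum_congr rfl fun e _ => ?_
    rw [integral_const_mul]
    congr 1
    unfold II
    congr 1
    funext x
    rw [Fin.prod_univ_succ, hT]
    simp [S.zero]
  simp only [h2]
  -- Cauchy-Schwarz
  have h3 : ‖∑ t : ι → Ω, ∫ x, f 0 x * g t x ∂μ‖ ≤ ∑ t : ι → Ω, ∫ x, ‖g t x‖ ∂μ := by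
    refine (norm_sum_le _ _).trans (Finset.sum_le_sum fun t _ => ?_)
    refine (norm_integral_le_integral_norm _).trans ?_
    refine integral_mono_of_nonneg (Filter.Eventually.of_forall fun x => norm_nonneg _) (hgni t)
      (Filter.Eventually.of_forall fun x => ?_)
    simp only
    rw [norm_mul]
    have := (hf 0).2 x
    nlinarith [norm_nonneg (g t x)]
  have h4 : (∑ t : ι → Ω, ∫ x, ‖g t x‖ ∂μ) ^ 2 ≤ C ^ n * ∑ t : ι → Ω, ∫ x, ‖g t x‖ ^ 2 ∂μ := by
    calc (∑ t : ι → Ω, ∫ x, ‖g t x‖ ∂μ) ^ 2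
        ≤ (Finset.univ : Finset (ι → Ω)).card * ∑ t : ι → Ω, (∫ x, ‖g t x‖ ∂μ) ^ 2 :=
          sq_sum_le_card_mul_sum_sq
      _ ≤ C ^ n * ∑ t : ι → Ω, ∫ x, ‖g t x‖ ^ 2 ∂μ := by
          rw [Finset.card_univ, Fintype.card_fun]
          push_cast
          exact mul_le_mul_of_nonneg_left (Finset.sum_le_sum fun t _ =>
            sq_integral_le (hgni t) (hgn2 t)) (by positivity)
  -- the pair functions
  set H : (ι → Fin 2) → (ι → Fin 2) → Fin m → X → ℂ := fun e e' j y =>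
    f j.succ (S.P ((((j : ℕ) : ℤ) + 1) * c e) y) *
      conj (f j.succ (S.P ((((j : ℕ) : ℤ) + 1) * c e') y)) with hH
  have hHb : ∀ e e' j, Bd (H e e' j) := fun e e' j =>
    ((hf j.succ).comp S _).mul ((hf j.succ).comp S _).star
  have h5 : ∀ t e e', ∫ x, T t e x * conj (T t e' x) ∂μ = II S (H e e') (M t) := by
    intro t e e'
    rw [← inv_int S (((hTb t e).mul (hTb t e').star).1) (-(M t))]
    unfold II
    congr 1
    funext x
    rw [hT, hH]
    simp only
    rw [map_prod, ← Finset.prod_mul_distrib]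
    refine Finset.prod_congr rfl fun j _ => ?_
    rw [← S.add, ← S.add, ← S.add, ← S.add]
    congr 3
    · ring_nf
    · ring_nf
  have h6 : ∀ t, ((∫ x, ‖g t x‖ ^ 2 ∂μ : ℝ) : ℂ) = ∑ e : ι → Fin 2, ∑ e' : ι → Fin 2,
      (∏ i, (stepW w (t i, e i) * conj (stepW w (t i, e' i)))) * II S (H e e') (M t) := by
    intro t
    rw [← integral_complex_ofReal]
    have e1 : ∀ x, (((‖g t x‖ ^ 2 : ℝ)) : ℂ) = ∑ e : ι → Fin 2, ∑ e' : ι → Fin 2,
        (∏ i, (stepW w (t i, e i) * conj (stepW w (t i, e' i)))) * (T t e x * conj (T t e' x)) := by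
      intro x
      have e2 : (((‖g t x‖ ^ 2 : ℝ)) : ℂ) = g t x * conj (g t x) := by
        rw [Complex.mul_conj, Complex.normSq_eq_norm_sq]
      rw [e2, hg]
      simp only
      rw [map_sum, Finset.sum_mul_sum]
      refine Finset.sum_congr rfl fun e _ => Finset.sum_congr rfl fun e' _ => ?_
      rw [Finset.prod_mul_distrib, map_mul, map_prod]
      ring
    simp only [e1]
    rw [integral_finsetSum]
    · refine Finset.sum_congr rfl fun e _ => ?_
      rw [integral_finsetSum]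
      · refine Finset.sum_congr rfl fun e' _ => ?_
        rw [integral_const_mul, h5]
      · intro e' _
        exact (((hTb t e).mul (hTb t e').star).integrable).const_mul _
    · intro e _
      refine integrable_finsetSum _ fun e' _ => ?_
      exact (((hTb t e).mul (hTb t e').star).integrable).const_mul _
  have h7 : ∑ t : ι → Ω, ∫ x, ‖g t x‖ ^ 2 ∂μ ≤ (B + 3 * C) ^ n := by
    have e0 : (0:ℝ) ≤ ∑ t : ι → Ω, ∫ x, ‖g t x‖ ^ 2 ∂μ :=
      Finset.sum_nonneg fun t _ => integral_nonneg fun x => by positivity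
    have e1 : ((∑ t : ι → Ω, ∫ x, ‖g t x‖ ^ 2 ∂μ : ℝ) : ℂ) = ∑ e : ι → Fin 2, ∑ e' : ι → Fin 2,
        ∑ t : ι → Ω, (∏ i, (stepW w (t i, e i) * conj (stepW w (t i, e' i)))) *
          II S (H e e') (M t) := by
      rw [Complex.ofReal_sum]
      simp only [h6]
      rw [Finset.sum_comm]
      refine Finset.sum_congr rfl fun e _ => ?_
      rw [Finset.sum_comm]
    have e2 : ‖((∑ t : ι → Ω, ∫ x, ‖g t x‖ ^ 2 ∂μ : ℝ) : ℂ)‖
        ≤ ∑ e : ι → Fin 2, ∑ e' : ι → Fin 2, ∏ i, (if e i = 1 ∧ e' i = 0 then B else C) := by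
      rw [e1]
      refine (norm_sum_le _ _).trans (Finset.sum_le_sum fun e _ => ?_)
      refine (norm_sum_le _ _).trans (Finset.sum_le_sum fun e' _ => ?_)
      refine partial_bound hD S ι v hv (H e e') (hHb e e') (fun i => e i = 1 ∧ e' i = 0)
        (fun i ω => stepW w (ω, e i) * conj (stepW w (ω, e' i))) ?_ ?_
      · rintro i ⟨h1, h0⟩ ω
        simp [stepW, h1, h0]
      · intro i ω
        rw [norm_mul, Complex.norm_conj, hw', hw', one_mul]
    rw [Complex.norm_real, Real.norm_of_nonneg e0] at e2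
    refine e2.trans (le_of_eq ?_)
    rw [sum_pairs (fun a b => if a = 1 ∧ b = 0 then B else C)]
    congr 1
    simp [Fin.sum_univ_two]
    ring
  have h8 : ‖∑ t : ι → Ω, ∫ x, f 0 x * g t x ∂μ‖ ^ 2 ≤ (C * (B + 3 * C)) ^ n := by
    calc _ ≤ (∑ t : ι → Ω, ∫ x, ‖g t x‖ ∂μ) ^ 2 := pow_le_pow_left₀ (norm_nonneg _) h3 2
      _ ≤ C ^ n * ∑ t : ι → Ω, ∫ x, ‖g t x‖ ^ 2 ∂μ := h4
      _ ≤ C ^ n * (B + 3 * C) ^ n := mul_le_mul_of_nonneg_left h7 (by positivity)
      _ = _ := by rw [mul_pow]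
  have h9 : (Real.sqrt (C * (B + 3 * C)) ^ n) ^ 2 = (C * (B + 3 * C)) ^ n := by
    rw [← pow_mul, mul_comm n 2, pow_mul, Real.sq_sqrt (by positivity)]
  exact le_of_sq_le_sq (by rw [h9]; exact h8) (by positivity)

end Pool.Agent.U373.KR
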